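import Mathlib
import Pool.Agent.Lib.MP_562b47_mp.MeanErg
import Pool.Agent.Lib.MP_562b47_mp.Comm2

/-!
Bounded measurable covariant families of operators.
(Anderson model, MP_562b47_mp.)
-/

open MeasureTheory Set Filter Topology Complex
open scoped Real ENNReal NNReal InnerProductSpace

set_option linter.unusedSectionVars false

namespace Pool.Agent.Lib.MP_562b47_mp

variable {Λ : Type*} [DecidableEq Λ] [AddCommGroup Λ] [Countable Λ] {E : Type*}
  [NormedAddCommGroup E] [InnerProductSpace ℂ E] [CompleteSpace E] {c : ℝ} {e : Λ → E}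
  {H : (Λ → ℝ) → (E →L[ℂ] E)} {A B : (Λ → ℝ) → (E →L[ℂ] E)} {K L : ℝ}

/-- bounded measurable covariant families of operators -/
structure MCov (c : ℝ) (e : Λ → E) (A : (Λ → ℝ) → (E →L[ℂ] E)) (K : ℝ) : Prop where
  bdd : ∀ ω, ‖A ω‖ ≤ K
  meas : ∀ x y, Measurable fun ω => ⟪e x, A ω (e y)⟫_ℂ
  cov : ∀ a x y, ∀ᵐ ω ∂(PP Λ c), ⟪e x, A (fun j => ω (j + a)) (e y)⟫_ℂ
    = ⟪e (x + a), A ω (e (y + a))⟫_ℂ

theorem MCov.nonneg (hA : MCov c e A K) : 0 ≤ K := (norm_nonneg _).trans (hA.bdd 0)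

theorem MCov.mono (hA : MCov c e A K) (h : K ≤ L) : MCov c e A L where
  bdd ω := (hA.bdd ω).trans h
  meas := hA.meas
  cov := hA.cov

theorem MCov.add (hA : MCov c e A K) (hB : MCov c e B L) :
    MCov c e (fun ω => A ω + B ω) (K + L) where
  bdd ω := (norm_add_le _ _).trans (add_le_add (hA.bdd ω) (hB.bdd ω))
  meas x y := by
    simp_rw [add_apply, inner_add_right]
    exact (hA.meas x y).add (hB.meas x y)
  cov a x y := by
    filter_upwards [hA.cov a x y, hB.cov a x y] with ω h1 h2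
    simp only [add_apply, inner_add_right, h1, h2]

theorem MCov.smul (z : ℂ) (hA : MCov c e A K) : MCov c e (fun ω => z • A ω) (‖z‖ * K) where
  bdd ω := by
    rw [norm_smul]
    exact mul_le_mul_of_nonneg_left (hA.bdd ω) (norm_nonneg _)
  meas x y := by
    simp_rw [smul_apply, inner_smul_right]
    exact (hA.meas x y).const_mul z
  cov a x y := by
    filter_upwards [hA.cov a x y] with ω h1
    simp only [smul_apply, inner_smul_right, h1]

theorem MCov.sub (hA : MCov c e A K) (hB : MCov c e B L) :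
    MCov c e (fun ω => A ω - B ω) (K + L) where
  bdd ω := (norm_sub_le _ _).trans (add_le_add (hA.bdd ω) (hB.bdd ω))
  meas x y := by
    simp_rw [sub_apply, inner_sub_right]
    exact (hA.meas x y).sub (hB.meas x y)
  cov a x y := by
    filter_upwards [hA.cov a x y, hB.cov a x y] with ω h1 h2
    simp only [sub_apply, inner_sub_right, h1, h2]

theorem inner_adjoint_eq (A : E →L[ℂ] E) (u v : E) :
    ⟪u, A.adjoint v⟫_ℂ = (starRingEnd ℂ) ⟪v, A u⟫_ℂ := by
  rw [ContinuousLinearMap.adjoint_inner_right, inner_conj_symm]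

theorem MCov.adjoint (hA : MCov c e A K) : MCov c e (fun ω => (A ω).adjoint) K where
  bdd ω := by
    rw [LinearIsometryEquiv.norm_map]
    exact hA.bdd ω
  meas x y := by
    simp_rw [inner_adjoint_eq]
    exact Complex.continuous_conj.measurable.comp (hA.meas y x)
  cov a x y := by
    filter_upwards [hA.cov a y x] with ω h1
    rw [inner_adjoint_eq, inner_adjoint_eq, h1]

theorem MCov.mul (M : Model c e H) (hA : MCov c e A K) (hB : MCov c e B L) :
    MCov c e (fun ω => A ω * B ω) (K * L) where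
  bdd ω := (norm_mul_le _ _).trans (mul_le_mul (hA.bdd ω) (hB.bdd ω) (norm_nonneg _) hA.nonneg)
  meas x y := by
    refine measurable_of_tendsto_metrizable' (atTop : Filter (Finset Λ))
      (f := fun s ω => ∑ w ∈ s, ⟪e x, A ω (e w)⟫_ℂ * ⟪e w, B ω (e y)⟫_ℂ) ?_ ?_
    · intro s
      exact Finset.measurable_fun_sum _ fun w _ => (hA.meas x w).mul (hB.meas w y)
    · rw [tendsto_pi_nhds]
      intro ω
      exact M.hasSum_inner (A ω) (e x) (B ω (e y))
  cov a x y := by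
    have h1 : ∀ᵐ ω ∂(PP Λ c), ∀ w, ⟪e x, A (fun j => ω (j + a)) (e w)⟫_ℂ
        = ⟪e (x + a), A ω (e (w + a))⟫_ℂ := by
      rw [ae_all_iff]; exact fun w => hA.cov a x w
    have h2 : ∀ᵐ ω ∂(PP Λ c), ∀ w, ⟪e w, B (fun j => ω (j + a)) (e y)⟫_ℂ
        = ⟪e (w + a), B ω (e (y + a))⟫_ℂ := by
      rw [ae_all_iff]; exact fun w => hB.cov a w y
    filter_upwards [h1, h2] with ω h3 h4
    have h5 := M.hasSum_inner (A fun j => ω (j + a)) (e x) (B (fun j => ω (j + a)) (e y))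
    have h6 := M.hasSum_inner (A ω) (e (x + a)) (B ω (e (y + a)))
    rw [← (Equiv.addRight a).hasSum_iff] at h6
    refine h5.unique ?_
    refine h6.congr_fun ?_ |> id
    intro w
    simp only [Function.comp, Equiv.coe_addRight]
    rw [h3 w, h4 w]

theorem MCov.of_covOp {V : Λ → (E ≃ₗᵢ[ℂ] E)} (hV : Trans e V) (hA : CovOp V A)
    (hK : ∀ ω, ‖A ω‖ ≤ K) : MCov c e A K where
  bdd := hK
  meas x y := (continuous_const.inner (hA.cont (e y))).measurable
  cov a x y := by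
    refine ae_of_all _ fun ω => ?_
    have h4 := hA.cov a ω (e (y + a))
    rw [hV.apply a y] at h4
    rw [← h4, ← hV.apply a x, LinearIsometryEquiv.inner_map_map]

/-- the unitary group -/
theorem mcov_Ut (M : Model c e H) {V : Λ → (E ≃ₗᵢ[ℂ] E)} (hV : Trans e V) (hH : CovOp V H)
    (t : ℝ) : MCov c e (fun ω => Ut H ω t) 1 :=
  MCov.of_covOp hV (hH.Ut t) fun ω => ContinuousLinearMap.opNorm_le_bound _ zero_le_one fun u => by
    rw [norm_Ut_apply (M.sa ω), one_mul]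

theorem MCov.measurable_sq (M : Model c e H) (hA : MCov c e A K) (x : Λ) :
    Measurable fun ω => ‖A ω (e x)‖ₑ ^ 2 := by
  simp_rw [M.parseval_enorm]
  exact Measurable.tsum fun k => (hA.meas k x).enorm.pow_const 2

theorem MCov.measurable_norm (M : Model c e H) (hA : MCov c e A K) (x : Λ) :
    Measurable fun ω => ‖A ω (e x)‖ := by
  have h1 : (fun ω => ‖A ω (e x)‖) = fun ω => √((‖A ω (e x)‖ₑ ^ 2).toReal) := by
    funext ω
    rw [ENNReal.toReal_pow, toReal_enorm, Real.sqrt_sq (norm_nonneg _)]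
  rw [h1]
  exact (hA.measurable_sq M x).ennreal_toReal.sqrt

theorem MCov.norm_apply_le (M : Model c e H) (hA : MCov c e A K) (ω : Λ → ℝ) (x : Λ) :
    ‖A ω (e x)‖ ≤ K := by
  have h1 := (A ω).le_opNorm (e x)
  rw [M.ortho.1 x, mul_one] at h1
  exact h1.trans (hA.bdd ω)

/-- mass transport -/
theorem MCov.mass_transport (M : Model c e H) (hA : MCov c e A K) :
    ∫⁻ ω, ‖A ω (e 0)‖ₑ ^ 2 ∂(PP Λ c) = ∫⁻ ω, ‖(A ω).adjoint (e 0)‖ₑ ^ 2 ∂(PP Λ c) := by
  have h := mt_kernel M.hc (q := fun x y ω => ‖⟪e x, A ω (e y)⟫_ℂ‖ₑ ^ 2)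
    (fun x y => (hA.meas x y).enorm.pow_const 2) (fun a x y => by
      filter_upwards [hA.cov a x y] with ω hω
      simp only [hω])
  simp_rw [M.parseval_enorm]
  rw [lintegral_tsum fun k => ((hA.meas k 0).enorm.pow_const 2).aemeasurable,
    lintegral_tsum fun k => ((hA.adjoint.meas k 0).enorm.pow_const 2).aemeasurable, h]
  refine tsum_congr fun y => lintegral_congr fun ω => ?_
  rw [inner_adjoint_eq, RCLike.enorm_conj]

/-- the mean square of a column does not depend on the column -/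
theorem MCov.shift_lintegral (M : Model c e H) (hA : MCov c e A K) (x : Λ) :
    ∫⁻ ω, ‖A ω (e x)‖ₑ ^ 2 ∂(PP Λ c) = ∫⁻ ω, ‖A ω (e 0)‖ₑ ^ 2 ∂(PP Λ c) := by
  have := unif_prob M.hc
  have hmp := measurePreserving_shift (Λ := Λ) (unif c) x
  have h1 : ∀ᵐ ω ∂(PP Λ c), ∀ w, ⟪e w, A (fun j => ω (j + x)) (e 0)⟫_ℂ
      = ⟪e (w + x), A ω (e x)⟫_ℂ := by
    rw [ae_all_iff]; intro w
    filter_upwards [hA.cov x w 0] with ω hω
    rw [hω, zero_add]
  have h2 : ∫⁻ ω, ‖A ω (e x)‖ₑ ^ 2 ∂(PP Λ c)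
      = ∫⁻ ω, ‖A (fun j => ω (j + x)) (e 0)‖ₑ ^ 2 ∂(PP Λ c) := by
    refine lintegral_congr_ae ?_
    filter_upwards [h1] with ω hω
    rw [M.parseval_enorm, M.parseval_enorm,
      ← (Equiv.addRight x).tsum_eq (fun k => ‖⟪e k, A ω (e x)⟫_ℂ‖ₑ ^ 2)]
    refine tsum_congr fun k => ?_
    rw [hω k, Equiv.coe_addRight]
  rw [h2]
  exact hmp.lintegral_comp (hA.measurable_sq M 0)

/-- invariance of the mean square under the dynamics -/
theorem MCov.conj_lintegral (M : Model c e H) {V : Λ → (E ≃ₗᵢ[ℂ] E)} (hV : Trans e V)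
    (hH : CovOp V H) (hA : MCov c e A K) (s : ℝ) :
    ∫⁻ ω, ‖(Ut H ω (-s) * A ω * Ut H ω s) (e 0)‖ₑ ^ 2 ∂(PP Λ c) =
      ∫⁻ ω, ‖A ω (e 0)‖ₑ ^ 2 ∂(PP Λ c) := by
  have h1 : ∀ ω, ‖(Ut H ω (-s) * A ω * Ut H ω s) (e 0)‖ₑ = ‖(A ω * Ut H ω s) (e 0)‖ₑ := by
    intro ω
    rw [← ofReal_norm, ← ofReal_norm, mul_assoc]
    congr 1
    exact norm_Ut_apply (M.sa ω) (-s) _
  have h2 : ∀ ω, ‖(A ω * Ut H ω s).adjoint (e 0)‖ₑ = ‖(A ω).adjoint (e 0)‖ₑ := by
    intro ω
    have h3 : (A ω * Ut H ω s).adjoint = Ut H ω (-s) * (A ω).adjoint := by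
      rw [← ContinuousLinearMap.star_eq_adjoint, star_mul,
        ContinuousLinearMap.star_eq_adjoint, ContinuousLinearMap.star_eq_adjoint,
        Ut_adjoint (M.sa ω)]
    rw [h3, ← ofReal_norm, ← ofReal_norm]
    congr 1
    exact norm_Ut_apply (M.sa ω) (-s) _
  simp_rw [h1]
  rw [(hA.mul M (mcov_Ut M hV hH s)).mass_transport M]
  simp_rw [h2]
  rw [hA.mass_transport M]

end Pool.Agent.Lib.MP_562b47_mp
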