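import Mathlib
import Pool.Agent.Lib.MP_562b47_mp.Qe.MCov

/-!
The mean ergodic theorem for bounded measurable covariant families of operators.
(Anderson model, MP_562b47_mp.)
-/

open MeasureTheory Set Filter Topology Complex
open scoped Real ENNReal NNReal InnerProductSpace

set_option linter.unusedSectionVars false

namespace Pool.Agent.Lib.MP_562b47_mp

variable {Λ : Type*} [DecidableEq Λ] [AddCommGroup Λ] [Countable Λ] {E : Type*}
  [NormedAddCommGroup E] [InnerProductSpace ℂ E] [CompleteSpace E] {c : ℝ} {e : Λ → E}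
  {H : (Λ → ℝ) → (E →L[ℂ] E)} {A B D D' : (Λ → ℝ) → (E →L[ℂ] E)} {K L : ℝ}
  {V : Λ → (E ≃ₗᵢ[ℂ] E)}

/-- the closure of the orbit under midpoints -/
inductive InC (H A : (Λ → ℝ) → (E →L[ℂ] E)) : ((Λ → ℝ) → (E →L[ℂ] E)) → Prop
  | base (s : ℝ) : InC H A (fun ω => Ut H ω (-s) * A ω * Ut H ω s)
  | half {D D' : (Λ → ℝ) → (E →L[ℂ] E)} (hD : InC H A D) (hD' : InC H A D') :
      InC H A (fun ω => (1 / 2 : ℂ) • (D ω + D' ω))

theorem MCov.conj (M : Model c e H) (hV : Trans e V) (hH : CovOp V H) (hA : MCov c e A K)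
    (s : ℝ) : MCov c e (fun ω => Ut H ω (-s) * A ω * Ut H ω s) K := by
  have h := ((mcov_Ut M hV hH (-s)).mul M hA).mul M (mcov_Ut M hV hH s)
  rwa [one_mul, mul_one] at h

theorem InC.mcov (M : Model c e H) (hV : Trans e V) (hH : CovOp V H) (hA : MCov c e A K)
    (hD : InC H A D) : MCov c e D K := by
  induction hD with
  | base s => exact hA.conj M hV hH s
  | half _ _ h1 h2 =>
    refine ((h1.add h2).smul (1 / 2)).mono (le_of_eq ?_)
    norm_num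
    ring

theorem InC.shift (hD : InC H A D) (s : ℝ) :
    InC H A (fun ω => Ut H ω (-s) * D ω * Ut H ω s) := by
  induction hD with
  | base t =>
    have h := InC.base (H := H) (A := A) (t + s)
    have e1 : (fun ω => Ut H ω (-(t + s)) * A ω * Ut H ω (t + s))
        = fun ω => Ut H ω (-s) * (Ut H ω (-t) * A ω * Ut H ω t) * Ut H ω s := by
      funext ω
      rw [show -(t + s) = -s + -t by ring, Ut_add, Ut_add]
      simp only [mul_assoc]
    rwa [e1] at h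
  | @half D D' _ _ h1 h2 =>
    have h := InC.half h1 h2
    have e1 : (fun ω => (1 / 2 : ℂ) • (Ut H ω (-s) * D ω * Ut H ω s +
        Ut H ω (-s) * D' ω * Ut H ω s)) =
        fun ω => Ut H ω (-s) * ((1 / 2 : ℂ) • (D ω + D' ω)) * Ut H ω s := by
      funext ω
      rw [mul_smul_comm, smul_mul_assoc, mul_add, add_mul]
    rwa [e1] at h

/-! ### Mean squares -/

theorem MCov.integrable_sq (M : Model c e H) (hA : MCov c e A K) (x : Λ) :
    Integrable (fun ω => ‖A ω (e x)‖ ^ 2) (PP Λ c) := by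
  have := PP_prob Λ M.hc
  refine Integrable.of_bound (C := K ^ 2) ((hA.measurable_norm M x).pow_const 2).aestronglyMeasurable
    (ae_of_all _ fun ω => ?_)
  rw [Real.norm_of_nonneg (by positivity)]
  exact pow_le_pow_left₀ (norm_nonneg _) (hA.norm_apply_le M ω x) 2

theorem MCov.lint_eq (M : Model c e H) (hA : MCov c e A K) :
    ∫⁻ ω, ‖A ω (e 0)‖ₑ ^ 2 ∂(PP Λ c) = ENNReal.ofReal (MS c e A) := by
  unfold MS
  rw [ofReal_integral_eq_lintegral_ofReal (hA.integrable_sq M 0)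
    (ae_of_all _ fun ω => by positivity)]
  refine lintegral_congr fun ω => ?_
  rw [← ofReal_norm, ENNReal.ofReal_pow (norm_nonneg _)]

theorem qe_parallelogram (M : Model c e H) (hD : MCov c e D K) (hD' : MCov c e D' K) :
    MS c e (fun ω => D ω - D' ω) =
      2 * MS c e D + 2 * MS c e D' - 4 * MS c e (fun ω => (1 / 2 : ℂ) • (D ω + D' ω)) := by
  have iA := hD.integrable_sq M 0
  have iB := hD'.integrable_sq M 0
  have iD := ((hD.add hD').smul (1 / 2)).integrable_sq M 0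
  unfold MS
  rw [← integral_const_mul, ← integral_const_mul, ← integral_const_mul, ← integral_add,
    ← integral_sub]
  · refine integral_congr_ae (ae_of_all _ fun ω => ?_)
    simp only [sub_apply, smul_apply, add_apply, norm_smul]
    have h1 := parallelogram_law_with_norm ℂ (D ω (e 0)) (D' ω (e 0))
    norm_num
    nlinarith [h1]
  · exact (iA.const_mul 2).add (iB.const_mul 2)
  · exact iD.const_mul 4
  · exact iA.const_mul 2
  · exact iB.const_mul 2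

theorem qe_diff_bound (M : Model c e H) (hV : Trans e V) (hH : CovOp V H) (hA : MCov c e A K)
    (hD : InC H A D) (hD' : InC H A D') {m : ℝ} (hm : ∀ D, InC H A D → m ≤ MS c e D) (x : Λ) :
    ∫⁻ ω, ‖D ω (e x) - D' ω (e x)‖ₑ ^ 2 ∂(PP Λ c) ≤
      ENNReal.ofReal (2 * MS c e D + 2 * MS c e D' - 4 * m) := by
  have hDc := hD.mcov M hV hH hA
  have hDc' := hD'.mcov M hV hH hA
  have h1 := (hDc.sub hDc').shift_lintegral M x
  have h3 := (hDc.sub hDc').lint_eq M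
  rw [h3, qe_parallelogram M hDc hDc'] at h1
  simp only [sub_apply] at h1
  rw [h1]
  refine ENNReal.ofReal_le_ofReal ?_
  have h4 := hm _ (hD.half hD')
  linarith

theorem MCov.MS_conj (M : Model c e H) (hV : Trans e V) (hH : CovOp V H) (hD : MCov c e D K)
    (s : ℝ) : MS c e (fun ω => Ut H ω (-s) * D ω * Ut H ω s) = MS c e D := by
  have h := hD.conj_lintegral M hV hH s
  rw [(hD.conj M hV hH s).lint_eq M, hD.lint_eq M] at h
  exact (ENNReal.ofReal_eq_ofReal_iff MS_nonneg MS_nonneg).1 h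

theorem qe_ae_geom {f : ℕ → (Λ → ℝ) → E} (hf : ∀ n, Measurable fun ω => ‖f n ω‖ₑ ^ 2) {C : ℝ}
    (hC : 0 ≤ C)
    (h : ∀ n, ∫⁻ ω, ‖f n ω‖ₑ ^ 2 ∂(PP Λ c) ≤ ENNReal.ofReal (C * (1 / 16) ^ n)) :
    ∀ᵐ ω ∂(PP Λ c), ∃ K : ℕ, ∀ n, ‖f n ω‖ ≤ K * (1 / 2) ^ n := by
  have hmeas : ∀ n, Measurable fun ω => ENNReal.ofReal ((4 : ℝ) ^ n) * ‖f n ω‖ₑ ^ 2 := fun n =>
    (hf n).const_mul _
  have h1 : ∫⁻ ω, ∑' n, ENNReal.ofReal ((4 : ℝ) ^ n) * ‖f n ω‖ₑ ^ 2 ∂(PP Λ c) ≠ ⊤ := by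
    rw [lintegral_tsum fun n => (hmeas n).aemeasurable]
    have h2 : ∀ n, ∫⁻ ω, ENNReal.ofReal ((4 : ℝ) ^ n) * ‖f n ω‖ₑ ^ 2 ∂(PP Λ c) ≤
        ENNReal.ofReal (C * (1 / 4) ^ n) := by
      intro n
      rw [lintegral_const_mul' _ _ ENNReal.ofReal_ne_top]
      calc ENNReal.ofReal ((4 : ℝ) ^ n) * ∫⁻ ω, ‖f n ω‖ₑ ^ 2 ∂(PP Λ c)
          ≤ ENNReal.ofReal ((4 : ℝ) ^ n) * ENNReal.ofReal (C * (1 / 16) ^ n) := by
            gcongr
            exact h n
        _ = ENNReal.ofReal (C * (1 / 4) ^ n) := by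
            rw [← ENNReal.ofReal_mul (by positivity)]
            congr 1
            have h3 : (4 : ℝ) ^ n * (1 / 16) ^ n = (1 / 4) ^ n := by
              rw [← mul_pow]; norm_num
            rw [← h3]; ring
    refine ne_top_of_le_ne_top ?_ (ENNReal.tsum_le_tsum h2)
    rw [← ENNReal.ofReal_tsum_of_nonneg (fun n => by positivity)
      ((summable_geometric_of_lt_one (by norm_num) (by norm_num)).mul_left C)]
    exact ENNReal.ofReal_ne_top
  have h3 := ae_lt_top (Measurable.tsum hmeas) h1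
  filter_upwards [h3] with ω hω
  set S := ∑' n, ENNReal.ofReal ((4 : ℝ) ^ n) * ‖f n ω‖ₑ ^ 2 with hS
  refine ⟨⌈Real.sqrt S.toReal⌉₊, fun n => ?_⟩
  have h4 : ENNReal.ofReal ((4 : ℝ) ^ n) * ‖f n ω‖ₑ ^ 2 ≤ S := ENNReal.le_tsum n
  have h5 : ENNReal.ofReal ((2 ^ n * ‖f n ω‖) ^ 2) ≤ S := by
    refine le_trans (le_of_eq ?_) h4
    rw [← ofReal_norm, ← ENNReal.ofReal_pow (norm_nonneg _),
      ← ENNReal.ofReal_mul (by positivity)]
    congr 1
    have h6 : (4 : ℝ) ^ n = (2 ^ n) ^ 2 := by rw [← pow_mul, mul_comm, pow_mul]; norm_num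
    rw [h6]; ring
  have h6 : (2 ^ n * ‖f n ω‖) ^ 2 ≤ S.toReal :=
    (ENNReal.ofReal_le_iff_le_toReal hω.ne).1 h5
  have h7 : 2 ^ n * ‖f n ω‖ ≤ Real.sqrt S.toReal := Real.le_sqrt_of_sq_le h6
  have h8 : 2 ^ n * ‖f n ω‖ ≤ (⌈Real.sqrt S.toReal⌉₊ : ℝ) := h7.trans (Nat.le_ceil _)
  have h9 : ‖f n ω‖ = (2 ^ n * ‖f n ω‖) * (1 / 2) ^ n := by
    have h10 : (2 : ℝ) ^ n * (1 / 2) ^ n = 1 := by rw [← mul_pow]; norm_num
    calc ‖f n ω‖ = ‖f n ω‖ * ((2 : ℝ) ^ n * (1 / 2) ^ n) := by rw [h10, mul_one]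
      _ = _ := by ring
  rw [h9]
  gcongr

/-- the limit of a minimising sequence -/
theorem qe_exists_B (M : Model c e H) (hV : Trans e V) (hH : CovOp V H) (hA : MCov c e A K)
    {m : ℝ} (hm : ∀ D, InC H A D → m ≤ MS c e D) (D : ℕ → (Λ → ℝ) → (E →L[ℂ] E))
    (hD : ∀ n, InC H A (D n)) (hDm : ∀ n, MS c e (D n) ≤ m + (1 / 16) ^ n) :
    ∃ B : (Λ → ℝ) → (E →L[ℂ] E), MCov c e B K ∧
      (∀ᵐ ω ∂(PP Λ c), Commute (B ω) (H ω)) ∧
      (∀ᵐ ω ∂(PP Λ c), ∀ u, Tendsto (fun n => D n ω u) atTop (𝓝 (B ω u))) := by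
  classical
  have := PP_prob Λ M.hc
  have := unif_prob M.hc
  have hcov : ∀ n, MCov c e (D n) K := fun n => (hD n).mcov M hV hH hA
  set G : Set (Λ → ℝ) := {ω | ∀ x, ∃ K : ℕ, ∀ n, ‖(D (n + 1) ω - D n ω) (e x)‖ ≤
    K * (1 / 2) ^ n} with hGdef
  have hGm : MeasurableSet G := by
    have h1 : G = ⋂ x, ⋃ K : ℕ, ⋂ n, {ω | ‖(D (n + 1) ω - D n ω) (e x)‖ ≤
        K * (1 / 2) ^ n} := by
      ext ω
      simp [hGdef]
    rw [h1]
    refine MeasurableSet.iInter fun x => MeasurableSet.iUnion fun K => MeasurableSet.iInter fun n => ?_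
    exact measurableSet_le (((hcov (n + 1)).sub (hcov n)).measurable_norm M x) measurable_const
  have hlim : ∀ ω, ∃ L : E →L[ℂ] E,
      (ω ∈ G → ∀ u, Tendsto (fun n => D n ω u) atTop (𝓝 (L u))) ∧ (ω ∉ G → L = 0) ∧
        ‖L‖ ≤ K := by
    intro ω
    by_cases hω : ω ∈ G
    · obtain ⟨L, h1, h2⟩ := me_limit M.ortho M.tot (fun n => D n ω) (K := K)
        (fun n => (hcov n).bdd ω) (fun x => by
          obtain ⟨K, hK⟩ := hω x
          refine cauchySeq_of_le_geometric (1 / 2) (K : ℝ) (by norm_num) fun n => ?_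
          rw [dist_comm, dist_eq_norm]
          exact hK n)
      exact ⟨L, fun _ => h1, fun h => absurd hω h, h2⟩
    · exact ⟨0, fun h => absurd h hω, fun _ => rfl, by rw [norm_zero]; exact hA.nonneg⟩
  choose B hB1 hB2 hB3 using hlim
  have hG : ∀ᵐ ω ∂(PP Λ c), ω ∈ G := by
    rw [hGdef]
    simp only [Set.mem_ofPred_eq]
    rw [ae_all_iff]
    intro x
    refine qe_ae_geom (C := 4) (fun n => ((hcov (n + 1)).sub (hcov n)).measurable_sq M x)
      (by norm_num) fun n => ?_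
    refine (qe_diff_bound M hV hH hA (hD (n + 1)) (hD n) hm x).trans
      (ENNReal.ofReal_le_ofReal ?_)
    have h1 := hDm (n + 1)
    have h2 := hDm n
    have h3 : (0 : ℝ) < (1 / 16) ^ n := by positivity
    rw [pow_succ] at h1
    linarith
  refine ⟨B, ⟨hB3, ?_, ?_⟩, ?_, ?_⟩
  · intro x y
    refine measurable_of_tendsto_metrizable
      (f := fun n ω => G.indicator (fun ω => ⟪e x, D n ω (e y)⟫_ℂ) ω)
      (fun n => ((hcov n).meas x y).indicator hGm) ?_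
    rw [tendsto_pi_nhds]
    intro ω
    by_cases hω : ω ∈ G
    · simp only [Set.indicator_of_mem hω]
      exact (continuous_const.inner continuous_id).continuousAt.tendsto.comp (hB1 ω hω (e y))
    · simp only [Set.indicator_of_notMem hω, hB2 ω hω, zero_apply, inner_zero_right]
      exact tendsto_const_nhds
  · intro a x y
    have h1 := (measurePreserving_shift (Λ := Λ) (unif c) a).quasiMeasurePreserving.ae hG
    have h1' : ∀ᵐ ω ∂(PP Λ c), (fun j => ω (j + a)) ∈ G := h1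
    have h0 : ∀ᵐ ω ∂(PP Λ c), ∀ n, ⟪e x, D n (fun j => ω (j + a)) (e y)⟫_ℂ
        = ⟪e (x + a), D n ω (e (y + a))⟫_ℂ := by
      rw [ae_all_iff]; exact fun n => (hcov n).cov a x y
    filter_upwards [hG, h1', h0] with ω hω hω' hω0
    have h2 : Tendsto (fun n => ⟪e x, D n (fun j => ω (j + a)) (e y)⟫_ℂ) atTop
        (𝓝 ⟪e x, B (fun j => ω (j + a)) (e y)⟫_ℂ) := tendsto_const_nhds.inner (hB1 _ hω' (e y))
    have h3 : Tendsto (fun n => ⟪e (x + a), D n ω (e (y + a))⟫_ℂ) atTop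
        (𝓝 ⟪e (x + a), B ω (e (y + a))⟫_ℂ) := tendsto_const_nhds.inner (hB1 _ hω (e (y + a)))
    exact tendsto_nhds_unique h2 (h3.congr fun n => (hω0 n).symm)
  · have hk : ∀ᵐ ω ∂(PP Λ c), ∀ (k : ℕ) (x : Λ), ∃ K : ℕ, ∀ n, ‖(D n ω -
        (Ut H ω (-(1 / (k + 1))) * D n ω * Ut H ω (1 / (k + 1)))) (e x)‖ ≤ K * (1 / 2) ^ n := by
      rw [ae_all_iff]
      intro k
      rw [ae_all_iff]
      intro x
      have hS : ∀ n, MCov c e (fun ω => Ut H ω (-(1 / ((k : ℝ) + 1))) * D n ω *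
          Ut H ω (1 / ((k : ℝ) + 1))) K := fun n => ((hD n).shift _).mcov M hV hH hA
      refine qe_ae_geom (C := 4) (fun n => ((hcov n).sub (hS n)).measurable_sq M x)
        (by norm_num) fun n => ?_
      refine (qe_diff_bound M hV hH hA (hD n) ((hD n).shift _) hm x).trans
        (ENNReal.ofReal_le_ofReal ?_)
      rw [(hcov n).MS_conj M hV hH]
      have h2 := hDm n
      have h3 : (0 : ℝ) < (1 / 16) ^ n := by positivity
      linarith
    filter_upwards [hG, hk] with ω hω hω'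
    refine me_commute fun k => ?_
    set s : ℝ := 1 / ((k : ℝ) + 1) with hs
    have h1 : B ω = Ut H ω (-s) * B ω * Ut H ω s := by
      refine me_ext M.ortho M.tot fun x => ?_
      obtain ⟨K, hK⟩ := hω' k x
      have h2 := me_tendsto_zero hK
      have h3 : Tendsto (fun n => D n ω (e x) - (Ut H ω (-s) * D n ω * Ut H ω s) (e x)) atTop
          (𝓝 (B ω (e x) - (Ut H ω (-s) * B ω * Ut H ω s) (e x))) := by
        refine (hB1 ω hω (e x)).sub ?_
        exact ((Ut H ω (-s)).continuous.continuousAt.tendsto.comp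
          (hB1 ω hω (Ut H ω s (e x))))
      have h4 := tendsto_nhds_unique h3 h2
      exact sub_eq_zero.1 h4
    have h5 : Ut H ω s * Ut H ω (-s) = 1 := by
      rw [← Ut_add, add_neg_cancel, Ut_zero]
    calc B ω * Ut H ω s = 1 * (B ω * Ut H ω s) := (one_mul _).symm
      _ = Ut H ω s * (Ut H ω (-s) * B ω * Ut H ω s) := by
          rw [← h5]; simp only [mul_assoc]
      _ = Ut H ω s * B ω := by rw [← h1]
  · filter_upwards [hG] with ω hω
    exact hB1 ω hω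

theorem qe_fatou (M : Model c e H) (hV : Trans e V) (hH : CovOp V H) (hA : MCov c e A K)
    {m : ℝ} (hm : ∀ D, InC H A D → m ≤ MS c e D) (D : ℕ → (Λ → ℝ) → (E →L[ℂ] E))
    (hD : ∀ n, InC H A (D n)) (hDm : ∀ n, MS c e (D n) ≤ m + (1 / 16) ^ n)
    (hB : ∀ᵐ ω ∂(PP Λ c), ∀ u, Tendsto (fun n => D n ω u) atTop (𝓝 (B ω u))) (n : ℕ) (x : Λ) :
    ∫⁻ ω, ‖(D n ω - B ω) (e x)‖ₑ ^ 2 ∂(PP Λ c) ≤ ENNReal.ofReal (4 * (1 / 16) ^ n) := by
  have hcov : ∀ n, MCov c e (D n) K := fun n => (hD n).mcov M hV hH hA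
  have h1 : ∫⁻ ω, ‖(D n ω - B ω) (e x)‖ₑ ^ 2 ∂(PP Λ c) =
      ∫⁻ ω, liminf (fun k => ‖(D n ω - D k ω) (e x)‖ₑ ^ 2) atTop ∂(PP Λ c) := by
    refine lintegral_congr_ae ?_
    filter_upwards [hB] with ω hω
    have h2 : Tendsto (fun k => ‖(D n ω - D k ω) (e x)‖ₑ ^ 2) atTop
        (𝓝 (‖(D n ω - B ω) (e x)‖ₑ ^ 2)) :=
      ENNReal.Tendsto.pow ((hω (e x)).const_sub _).enorm
    exact h2.liminf_eq.symm
  rw [h1]
  refine (lintegral_liminf_le fun k => ((hcov n).sub (hcov k)).measurable_sq M x).trans ?_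
  refine liminf_le_of_frequently_le' ?_
  refine Eventually.frequently ?_
  filter_upwards [eventually_ge_atTop n] with k hk
  refine (qe_diff_bound M hV hH hA (hD n) (hD k) hm x).trans
    (ENNReal.ofReal_le_ofReal ?_)
  have h2 := hDm k
  have h3 := hDm n
  have h4 : (1 / 16 : ℝ) ^ k ≤ (1 / 16) ^ n :=
    pow_le_pow_of_le_one (by norm_num) (by norm_num) hk
  linarith

/-! ### Time averages -/

theorem qe_continuous_Ut (H : (Λ → ℝ) → (E →L[ℂ] E)) (ω : Λ → ℝ) :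
    Continuous fun s : ℝ => Ut H ω s := by
  rw [continuous_iff_continuousAt]
  exact fun s => (hasDerivAt_Ut H ω s).continuousAt

theorem qe_cont (H : (Λ → ℝ) → (E →L[ℂ] E)) (ω : Λ → ℝ) (T : E →L[ℂ] E) :
    Continuous fun s : ℝ => Ut H ω (-s) * T * Ut H ω s :=
  (((qe_continuous_Ut H ω).comp continuous_neg).mul continuous_const).mul (qe_continuous_Ut H ω)

/-- the time average `(1/T) ∫_0^T e^{isH} A e^{-isH} ds` -/
noncomputable def TA (H : (Λ → ℝ) → (E →L[ℂ] E)) (ω : Λ → ℝ) (X : E →L[ℂ] E) (T : ℝ) :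
    E →L[ℂ] E := (T⁻¹ : ℝ) • ∫ s in (0 : ℝ)..T, Ut H ω (-s) * X * Ut H ω s

theorem TA_add (ω : Λ → ℝ) (X Y : E →L[ℂ] E) (T : ℝ) :
    TA H ω (X + Y) T = TA H ω X T + TA H ω Y T := by
  unfold TA
  rw [← smul_add, ← intervalIntegral.integral_add ((qe_cont H ω X).intervalIntegrable _ _)
    ((qe_cont H ω Y).intervalIntegrable _ _)]
  congr 2
  funext s
  rw [mul_add, add_mul]

theorem TA_smul (ω : Λ → ℝ) (z : ℂ) (X : E →L[ℂ] E) (T : ℝ) :
    TA H ω (z • X) T = z • TA H ω X T := by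
  have h1 : ∀ s, Ut H ω (-s) * (z • X) * Ut H ω s = z • (Ut H ω (-s) * X * Ut H ω s) := by
    intro s
    rw [mul_smul_comm, smul_mul_assoc]
  unfold TA
  simp_rw [h1]
  rw [intervalIntegral.integral_smul, smul_comm]

theorem TA_sub (ω : Λ → ℝ) (X Y : E →L[ℂ] E) (T : ℝ) :
    TA H ω (X - Y) T = TA H ω X T - TA H ω Y T := by
  have h1 : X - Y = X + (-1 : ℂ) • Y := by rw [neg_one_smul, sub_eq_add_neg]
  rw [h1, TA_add, TA_smul, neg_one_smul, sub_eq_add_neg]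

theorem TA_of_commute {ω : Λ → ℝ} {X : E →L[ℂ] E} (h : Commute X (H ω)) {T : ℝ} (hT : 0 < T) :
    TA H ω X T = X := by
  have h1 : ∀ s, Ut H ω (-s) * X * Ut H ω s = X := by
    intro s
    have h2 : Commute X (Ut H ω s) := by
      unfold Ut
      exact (h.smul_right _).exp_right
    rw [mul_assoc, h2.eq, ← mul_assoc, ← Ut_add, neg_add_cancel, Ut_zero, one_mul]
  unfold TA
  simp_rw [h1]
  rw [intervalIntegral.integral_const, sub_zero, smul_smul, inv_mul_cancel₀ hT.ne', one_smul]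

theorem norm_conj_le (M : Model c e H) (ω : Λ → ℝ) (X : E →L[ℂ] E) (s : ℝ) :
    ‖Ut H ω (-s) * X * Ut H ω s‖ ≤ ‖X‖ := norm_Js_le (M.sa ω) X s

theorem TA_shift (M : Model c e H) (ω : Λ → ℝ) (X : E →L[ℂ] E) (t : ℝ) {T : ℝ} (hT : 0 < T) :
    ‖TA H ω X T - TA H ω (Ut H ω (-t) * X * Ut H ω t) T‖ ≤ T⁻¹ * (2 * ‖X‖ * |t|) := by
  have h1 : ∀ s : ℝ, Ut H ω (-s) * (Ut H ω (-t) * X * Ut H ω t) * Ut H ω s
      = Ut H ω (-(t + s)) * X * Ut H ω (t + s) := by
    intro s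
    rw [show -(t + s) = -s + -t by ring, Ut_add, Ut_add]
    simp only [mul_assoc]
  unfold TA
  simp_rw [h1]
  rw [intervalIntegral.integral_comp_add_left (fun s => Ut H ω (-s) * X * Ut H ω s) t, add_zero,
    ← smul_sub, norm_smul, Real.norm_of_nonneg (inv_nonneg.mpr hT.le)]
  refine mul_le_mul_of_nonneg_left ?_ (inv_nonneg.mpr hT.le)
  have hc := qe_cont H ω X
  rw [intervalIntegral.integral_interval_sub_interval_comm (hc.intervalIntegrable _ _)
    (hc.intervalIntegrable _ _) (hc.intervalIntegrable _ _)]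
  have hb : ∀ s, ‖Ut H ω (-s) * X * Ut H ω s‖ ≤ ‖X‖ := fun s => norm_conj_le M ω X s
  have h2 : ‖∫ s in (0 : ℝ)..t, Ut H ω (-s) * X * Ut H ω s‖ ≤ ‖X‖ * |t - 0| :=
    intervalIntegral.norm_integral_le_of_norm_le_const fun s _ => hb s
  have h3 : ‖∫ s in T..(t + T), Ut H ω (-s) * X * Ut H ω s‖ ≤ ‖X‖ * |t + T - T| :=
    intervalIntegral.norm_integral_le_of_norm_le_const fun s _ => hb s
  rw [sub_zero] at h2
  rw [add_sub_cancel_right] at h3
  calc _ ≤ ‖∫ s in (0 : ℝ)..t, Ut H ω (-s) * X * Ut H ω s‖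
        + ‖∫ s in T..(t + T), Ut H ω (-s) * X * Ut H ω s‖ := norm_sub_le _ _
    _ ≤ 2 * ‖X‖ * |t| := by linarith

theorem qe_TA_diff (M : Model c e H) (hA : MCov c e A K) (hD : InC H A D) :
    ∃ C : ℝ, 0 ≤ C ∧ ∀ (T : ℝ) (ω : Λ → ℝ), 0 < T →
      ‖TA H ω (A ω) T - TA H ω (D ω) T‖ ≤ T⁻¹ * C := by
  induction hD with
  | base t =>
    refine ⟨2 * K * |t|, mul_nonneg (mul_nonneg zero_le_two hA.nonneg) (abs_nonneg _),
      fun T ω hT => ?_⟩
    refine (TA_shift M ω (A ω) t hT).trans ?_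
    have := hA.bdd ω
    gcongr
  | @half D D' hD hD' h1 h2 =>
    obtain ⟨C1, hC1, h1⟩ := h1
    obtain ⟨C2, hC2, h2⟩ := h2
    refine ⟨C1 + C2, by positivity, fun T ω hT => ?_⟩
    rw [TA_smul, TA_add]
    set x := TA H ω (A ω) T
    set y := TA H ω (D ω) T with hy
    set w := TA H ω (D' ω) T with hw
    have h4 : x - (1 / 2 : ℂ) • (y + w) = (1 / 2 : ℂ) • ((x - y) + (x - w)) := by
      have h5 : x = (1 / 2 : ℂ) • (x + x) := by
        rw [← two_smul ℂ x, smul_smul]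
        norm_num
      conv_lhs => rw [h5]
      rw [← smul_sub]
      congr 1
      abel
    rw [h4, norm_smul]
    have h6 := norm_add_le (x - y) (x - w)
    have h7 := h1 T ω hT
    have h8 := h2 T ω hT
    have h9 : ‖(1 / 2 : ℂ)‖ = 1 / 2 := by norm_num
    rw [h9]
    have h10 := norm_nonneg ((x - y) + (x - w))
    have h11 : T⁻¹ * (C1 + C2) = T⁻¹ * C1 + T⁻¹ * C2 := by ring
    linarith

theorem MCov.avg (M : Model c e H) (hV : Trans e V) (hH : CovOp V H) (hD : MCov c e D K)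
    (x : Λ) {T : ℝ} (hT : 0 < T) :
    ∫⁻ ω, ‖TA H ω (D ω) T (e x)‖ₑ ^ 2 ∂(PP Λ c) ≤ ∫⁻ ω, ‖D ω (e 0)‖ₑ ^ 2 ∂(PP Λ c) := by
  have := PP_prob Λ M.hc
  have hm : Measurable fun p : (Λ → ℝ) × ℝ =>
      ‖(Ut H p.1 (-p.2) * D p.1 * Ut H p.1 p.2) (e x)‖ₑ ^ 2 := by
    have h1 : ∀ p : (Λ → ℝ) × ℝ, ‖(Ut H p.1 (-p.2) * D p.1 * Ut H p.1 p.2) (e x)‖ₑ ^ 2
        = ∑' k, ‖⟪e k, D p.1 (Ut H p.1 p.2 (e x))⟫_ℂ‖ₑ ^ 2 := by
      intro p
      rw [← M.parseval_enorm]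
      congr 1
      rw [← ofReal_norm, ← ofReal_norm]
      congr 1
      exact norm_Ut_apply (M.sa p.1) (-p.2) _
    simp_rw [h1]
    refine Measurable.tsum fun k => (Measurable.enorm ?_).pow_const 2
    refine measurable_of_tendsto_metrizable' (atTop : Filter (Finset Λ))
      (f := fun s p => ∑ w ∈ s, ⟪e k, D p.1 (e w)⟫_ℂ * ⟪e w, Ut H p.1 p.2 (e x)⟫_ℂ) ?_ ?_
    · intro s
      refine Finset.measurable_fun_sum _ fun w _ => ?_
      refine ((hD.meas k w).comp measurable_fst).mul ?_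
      exact (continuous_const.inner (continuous_Ut_apply hH continuous_fst continuous_snd
        continuous_const)).measurable
    · rw [tendsto_pi_nhds]
      intro p
      exact M.hasSum_inner (D p.1) (e k) (Ut H p.1 p.2 (e x))
  have hTi : ENNReal.ofReal T⁻¹ * ENNReal.ofReal T = 1 := by
    rw [← ENNReal.ofReal_mul (inv_nonneg.mpr hT.le), inv_mul_cancel₀ hT.ne', ENNReal.ofReal_one]
  calc ∫⁻ ω, ‖TA H ω (D ω) T (e x)‖ₑ ^ 2 ∂(PP Λ c)
      ≤ ∫⁻ ω, (ENNReal.ofReal T⁻¹ * ∫⁻ s in Ioc (0 : ℝ) T,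
          ‖(Ut H ω (-s) * D ω * Ut H ω s) (e x)‖ₑ ^ 2) ∂(PP Λ c) := by
        refine lintegral_mono fun ω => ?_
        have hcω := qe_cont H ω (D ω)
        have hcx : Continuous fun s : ℝ => (Ut H ω (-s) * D ω * Ut H ω s) (e x) :=
          (ContinuousLinearMap.apply ℂ E (e x)).continuous.comp hcω
        have h1 : TA H ω (D ω) T (e x)
            = (T⁻¹ : ℝ) • ∫ s in (0 : ℝ)..T, (Ut H ω (-s) * D ω * Ut H ω s) (e x) := by
          unfold TA
          rw [smul_apply]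
          congr 1
          exact ((ContinuousLinearMap.apply ℂ E (e x)).intervalIntegral_comp_comm
            (hcω.intervalIntegrable 0 T)).symm
        rw [h1, enorm_smul, mul_pow, intervalIntegral.integral_of_le hT.le]
        have h2 : ‖(T⁻¹ : ℝ)‖ₑ = ENNReal.ofReal T⁻¹ := by
          rw [← ofReal_norm, Real.norm_of_nonneg (inv_nonneg.mpr hT.le)]
        rw [h2]
        have h3 : ‖∫ s in Ioc (0 : ℝ) T, (Ut H ω (-s) * D ω * Ut H ω s) (e x)‖ₑ ^ 2
            ≤ ENNReal.ofReal T * ∫⁻ s in Ioc (0 : ℝ) T,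
              ‖(Ut H ω (-s) * D ω * Ut H ω s) (e x)‖ₑ ^ 2 := by
          have h4 : ‖∫ s in Ioc (0 : ℝ) T, (Ut H ω (-s) * D ω * Ut H ω s) (e x)‖ₑ ^ 2
              ≤ (∫⁻ s in Ioc (0 : ℝ) T, ‖(Ut H ω (-s) * D ω * Ut H ω s) (e x)‖ₑ) ^ 2 := by
            gcongr
            exact enorm_integral_le_lintegral_enorm _
          have h5 : (∫⁻ s in Ioc (0 : ℝ) T, ‖(Ut H ω (-s) * D ω * Ut H ω s) (e x)‖ₑ) ^ 2
              ≤ (volume.restrict (Ioc (0 : ℝ) T)) univ * ∫⁻ s in Ioc (0 : ℝ) T,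
                ‖(Ut H ω (-s) * D ω * Ut H ω s) (e x)‖ₑ ^ 2 :=
            me_cs _ (hcx.enorm.measurable.aemeasurable)
          rw [Measure.restrict_apply_univ, Real.volume_Ioc, sub_zero] at h5
          exact h4.trans h5
        calc ENNReal.ofReal T⁻¹ ^ 2
              * ‖∫ s in Ioc (0 : ℝ) T, (Ut H ω (-s) * D ω * Ut H ω s) (e x)‖ₑ ^ 2
            ≤ ENNReal.ofReal T⁻¹ ^ 2 * (ENNReal.ofReal T * ∫⁻ s in Ioc (0 : ℝ) T,
              ‖(Ut H ω (-s) * D ω * Ut H ω s) (e x)‖ₑ ^ 2) := by gcongr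
          _ = (ENNReal.ofReal T⁻¹ * ENNReal.ofReal T) * (ENNReal.ofReal T⁻¹
              * ∫⁻ s in Ioc (0 : ℝ) T, ‖(Ut H ω (-s) * D ω * Ut H ω s) (e x)‖ₑ ^ 2) := by
              ring
          _ = _ := by rw [hTi, one_mul]
    _ = ENNReal.ofReal T⁻¹ * ∫⁻ s in Ioc (0 : ℝ) T, ∫⁻ ω,
          ‖(Ut H ω (-s) * D ω * Ut H ω s) (e x)‖ₑ ^ 2 ∂(PP Λ c) := by
        rw [lintegral_const_mul' _ _ ENNReal.ofReal_ne_top]
        congr 1
        exact lintegral_lintegral_swap hm.aemeasurable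
    _ = ENNReal.ofReal T⁻¹ * ∫⁻ _s in Ioc (0 : ℝ) T, ∫⁻ ω, ‖D ω (e 0)‖ₑ ^ 2 ∂(PP Λ c) := by
        congr 1
        refine lintegral_congr fun s => ?_
        have h1 := (hD.conj M hV hH s).shift_lintegral M x
        rw [h1, hD.conj_lintegral M hV hH s]
    _ = ∫⁻ ω, ‖D ω (e 0)‖ₑ ^ 2 ∂(PP Λ c) := by
        rw [lintegral_const, Measure.restrict_apply_univ, Real.volume_Ioc, sub_zero,
          mul_comm (∫⁻ ω, ‖D ω (e 0)‖ₑ ^ 2 ∂(PP Λ c)), ← mul_assoc, hTi, one_mul]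

end Pool.Agent.Lib.MP_562b47_mp
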