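import Mathlib
import Pool.Agent.Lib.MP_562b47_mp.Cc.SpecD

/-!
The norm of `B ψ`, and `B ψ = α(H) ψ`, on the absolutely continuous subspace.
(Anderson model, MP_562b47_mp.)
-/

open MeasureTheory Measure ProbabilityTheory Set Filter Topology Complex
open scoped Real ENNReal NNReal InnerProductSpace

set_option linter.unusedSectionVars false

namespace Pool.Agent.Lib.MP_562b47_mp

variable {Λ : Type*} [DecidableEq Λ] [AddCommGroup Λ] [Countable Λ] {E : Type*}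
  [NormedAddCommGroup E] [InnerProductSpace ℂ E] [CompleteSpace E] {c : ℝ} {e : Λ → E}

theorem qe_specE_main {H B : E →L[ℂ] E} (hH : IsSelfAdjoint H) (hcomm : Commute B H) {K : ℝ}
    (hK : ‖B‖ ≤ K) {α : ℝ → ℂ} (hα : Measurable α) (hαK : ∀ s, ‖α s‖ ≤ K)
    (ho : Orthonormal ℂ e) (tot : ∀ u : E, (∀ x, ⟪e x, u⟫_ℂ = 0) → u = 0) {φ : ℕ → ℕ}
    (hφ : StrictMono φ)
    (h : ∀ᵐ s ∂kap, ∀ x, Tendsto (fun k => (Zt (tk (φ k)) s).im
      * ‖Rv H (Zt (tk (φ k)) s) (B (e x) - α s • e x)‖ ^ 2) atTop (𝓝 0))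
    {ψ : E} {μ : Measure ℝ} [IsFiniteMeasure μ] (hμ : IsSpec H ψ μ) (hac : μ ≪ volume)
    (g : BoundedContinuousFunction ℝ ℝ) :
    ⟪B ψ, cfc (fun l : ℝ => g l * (1 + l ^ 2)⁻¹) H (B ψ)⟫_ℂ
      = ∫ l, ((g l : ℂ) * ((‖α l‖ ^ 2 : ℝ) : ℂ)) * ((1 + l ^ 2)⁻¹ : ℝ) ∂μ := by
  have hK0 : 0 ≤ K := (norm_nonneg _).trans hK
  have hg0 : 0 ≤ ‖g‖ := norm_nonneg g
  set z : ℕ → ℝ → ℂ := fun k s => Zt (tk (φ k)) s with hz
  have hzi : ∀ k s, 0 < (z k s).im := fun k s => Zt_im_pos (tk_pos _) s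
  have hzm : ∀ k, Measurable fun s => (z k s).im := fun k =>
    (Complex.continuous_im.comp continuous_Zt).measurable
  have hR : ∀ k (u : E), Continuous fun s => Rv H (z k s) u := fun k u =>
    cc_specC_continuous_Rv hH (tk_pos _) u
  have hJ := (tendsto_sesq hH (B ψ) (B ψ) g).comp hφ.tendsto_atTop
  -- the error
  set Er : ℕ → ℝ → ℝ := fun k s => (z k s).im * ‖Rv H (z k s) (B ψ - α s • ψ)‖ ^ 2 with hEr
  set P : ℕ → ℝ → ℝ := fun k s => Pois μ (z k s) with hP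
  have hPR : ∀ k s, P k s = (z k s).im * ‖Rv H (z k s) ψ‖ ^ 2 := fun k s =>
    hμ.pois hH (hzi k s)
  have hsm : ∀ k, StronglyMeasurable fun s => Rv H (z k s) (B ψ - α s • ψ) := by
    intro k
    have h1 : (fun s => Rv H (z k s) (B ψ - α s • ψ))
        = fun s => Rv H (z k s) (B ψ) - α s • Rv H (z k s) ψ := by
      funext s; rw [map_sub, map_smul]
    rw [h1]
    exact (hR k _).stronglyMeasurable.sub (hα.stronglyMeasurable.smul (hR k _).stronglyMeasurable)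
  have hEm : ∀ k, Measurable (Er k) := fun k => (hzm k).mul ((hsm k).norm.measurable.pow_const 2)
  have hEr0 : ∀ k s, 0 ≤ Er k s := fun k s => by
    have := hzi k s
    simp only [hEr]; positivity
  have hnull : Null kap (fun k s => ENNReal.ofReal (Er k s)) := by
    have h1 := null_all hH hcomm hK hα hαK ho tot hφ h ψ
    refine h1.mono fun k => ae_of_all _ fun s => le_of_eq ?_
    simp only [hEr]
    rw [ENNReal.ofReal_mul (hzi k s).le, ENNReal.ofReal_pow (norm_nonneg _), ofReal_norm]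
  -- the error term
  set F : ℕ → ℝ → ℝ := fun k s => (z k s).im * (‖Rv H (z k s) ψ‖
    * ‖Rv H (z k s) (B ψ - α s • ψ)‖) with hF
  have hF0 : ∀ k s, 0 ≤ F k s := fun k s => by have := hzi k s; simp only [hF]; positivity
  have hFm : ∀ k, Measurable (F k) := fun k =>
    (hzm k).mul ((hR k ψ).norm.measurable.mul (hsm k).norm.measurable)
  have hP0 : ∀ k s, 0 ≤ P k s := fun k s => Pois_nonneg μ (hzi k s)
  have hPi : ∀ k, Integrable (P k) kap := fun k => integrable_Pois μ (tk_pos _)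
  have hcomm2 : ∀ k s, ‖Rv H (z k s) (B ψ - α s • ψ)‖ ≤ 2 * K * ‖Rv H (z k s) ψ‖ := by
    intro k s
    rw [map_sub, map_smul, ← commute_apply (commute_Rv hcomm (z k s))]
    calc ‖B (Rv H (z k s) ψ) - α s • Rv H (z k s) ψ‖
        ≤ ‖B (Rv H (z k s) ψ)‖ + ‖α s • Rv H (z k s) ψ‖ := norm_sub_le _ _
      _ ≤ K * ‖Rv H (z k s) ψ‖ + K * ‖Rv H (z k s) ψ‖ := by
          refine add_le_add ?_ ?_
          · exact (B.le_opNorm _).trans (mul_le_mul_of_nonneg_right hK (norm_nonneg _))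
          · rw [norm_smul]
            exact mul_le_mul_of_nonneg_right (hαK s) (norm_nonneg _)
      _ = 2 * K * ‖Rv H (z k s) ψ‖ := by ring
  have hFlim : Tendsto (fun k => ∫ s, F k s ∂kap) atTop (𝓝 0) := by
    refine cc_specD_abs (P := P) (Er := Er) (D := Dens μ) (K := 2 * K) (by positivity) hF0 hP0
      (Dens_nonneg μ) hEm hPi (cc_specD_integrable_Dens μ)
      ((pois_tendsto_L1 hac).comp hφ.tendsto_atTop) hnull ?_ ?_
    · intro k s
      rw [← Real.sqrt_mul (hP0 k s), hPR]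
      refine Real.le_sqrt_of_sq_le (le_of_eq ?_)
      simp only [hF, hEr]
      ring
    · intro k s
      rw [hPR]
      have h1 := hcomm2 k s
      have h2 := hzi k s
      simp only [hF]
      calc (z k s).im * (‖Rv H (z k s) ψ‖ * ‖Rv H (z k s) (B ψ - α s • ψ)‖)
          ≤ (z k s).im * (‖Rv H (z k s) ψ‖ * (2 * K * ‖Rv H (z k s) ψ‖)) := by gcongr
        _ = 2 * K * ((z k s).im * ‖Rv H (z k s) ψ‖ ^ 2) := by ring
  have hErF : ∀ k s, Er k s ≤ 2 * K * F k s := by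
    intro k s
    have h1 := hcomm2 k s
    have h2 := hzi k s
    simp only [hEr, hF]
    calc (z k s).im * ‖Rv H (z k s) (B ψ - α s • ψ)‖ ^ 2
        = (z k s).im * (‖Rv H (z k s) (B ψ - α s • ψ)‖ * ‖Rv H (z k s) (B ψ - α s • ψ)‖) := by
          ring
      _ ≤ (z k s).im * ((2 * K * ‖Rv H (z k s) ψ‖) * ‖Rv H (z k s) (B ψ - α s • ψ)‖) := by
          gcongr
      _ = _ := by ring
  -- integrability
  have hFi : ∀ k, Integrable (F k) kap := by
    intro k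
    refine Integrable.mono' ((hPi k).const_mul (2 * K)) (hFm k).aestronglyMeasurable
      (ae_of_all _ fun s => ?_)
    rw [Real.norm_of_nonneg (hF0 k s), hPR]
    have h1 := hcomm2 k s
    have h2 := hzi k s
    simp only [hF]
    calc (z k s).im * (‖Rv H (z k s) ψ‖ * ‖Rv H (z k s) (B ψ - α s • ψ)‖)
        ≤ (z k s).im * (‖Rv H (z k s) ψ‖ * (2 * K * ‖Rv H (z k s) ψ‖)) := by gcongr
      _ = 2 * K * ((z k s).im * ‖Rv H (z k s) ψ‖ ^ 2) := by ring
  set S2 : ℕ → ℝ → ℂ := fun k s => (g s : ℂ) * (((z k s).im : ℂ)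
      * (⟪α s • Rv H (z k s) ψ, Rv H (z k s) (B ψ - α s • ψ)⟫_ℂ
        + ⟪Rv H (z k s) (B ψ - α s • ψ), α s • Rv H (z k s) ψ⟫_ℂ
        + ⟪Rv H (z k s) (B ψ - α s • ψ), Rv H (z k s) (B ψ - α s • ψ)⟫_ℂ)) with hS2
  have hαR : ∀ k, StronglyMeasurable fun s => α s • Rv H (z k s) ψ := fun k =>
    hα.stronglyMeasurable.smul (hR k ψ).stronglyMeasurable
  have hS2m : ∀ k, StronglyMeasurable (S2 k) := by
    intro k
    refine StronglyMeasurable.mul (Complex.continuous_ofReal.comp g.continuous).stronglyMeasurable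
      (StronglyMeasurable.mul (Complex.continuous_ofReal.measurable.comp
        (hzm k)).stronglyMeasurable ?_)
    exact (((hαR k).inner (hsm k)).add ((hsm k).inner (hαR k))).add ((hsm k).inner (hsm k))
  have hS2b : ∀ k s, ‖S2 k s‖ ≤ ‖g‖ * (4 * K * F k s) := by
    intro k s
    simp only [hS2]
    rw [norm_mul, norm_mul, Complex.norm_real, Complex.norm_real,
      Real.norm_of_nonneg (hzi k s).le]
    have h2 := g.norm_coe_le_norm s
    have h3 := hzi k s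
    have h4 : ‖α s • Rv H (z k s) ψ‖ ≤ K * ‖Rv H (z k s) ψ‖ := by
      rw [norm_smul]
      exact mul_le_mul_of_nonneg_right (hαK s) (norm_nonneg _)
    set δ := Rv H (z k s) (B ψ - α s • ψ) with hδ
    set r := Rv H (z k s) ψ with hr
    have h5 := norm_inner_le_norm (𝕜 := ℂ) (α s • r) δ
    have h6 := norm_inner_le_norm (𝕜 := ℂ) δ (α s • r)
    have h7 := norm_inner_le_norm (𝕜 := ℂ) δ δ
    have h8 : ‖δ‖ ≤ 2 * K * ‖r‖ := hcomm2 k s
    have h9 : ‖⟪α s • r, δ⟫_ℂ + ⟪δ, α s • r⟫_ℂ + ⟪δ, δ⟫_ℂ‖ ≤ 4 * K * (‖r‖ * ‖δ‖) := by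
      refine (norm_add₃_le).trans ?_
      have h10 : ‖α s • r‖ * ‖δ‖ ≤ K * ‖r‖ * ‖δ‖ := mul_le_mul_of_nonneg_right h4 (norm_nonneg _)
      have h11 : ‖δ‖ * ‖δ‖ ≤ 2 * K * ‖r‖ * ‖δ‖ := mul_le_mul_of_nonneg_right h8 (norm_nonneg _)
      nlinarith
    calc ‖g s‖ * ((z k s).im * ‖⟪α s • r, δ⟫_ℂ + ⟪δ, α s • r⟫_ℂ + ⟪δ, δ⟫_ℂ‖)
        ≤ ‖g‖ * ((z k s).im * (4 * K * (‖r‖ * ‖δ‖))) := by gcongr
      _ = ‖g‖ * (4 * K * F k s) := by simp only [hF]; ring
  have hS2i : ∀ k, Integrable (S2 k) kap := fun k =>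
    Integrable.mono' (((hFi k).const_mul (4 * K)).const_mul ‖g‖) (hS2m k).aestronglyMeasurable
      (ae_of_all _ (hS2b k))
  have hS2lim : Tendsto (fun k => ∫ s, S2 k s ∂kap) atTop (𝓝 0) := by
    rw [tendsto_zero_iff_norm_tendsto_zero]
    refine squeeze_zero (fun k => norm_nonneg _) (fun k => ?_)
      (by simpa using (hFlim.const_mul (4 * K)).const_mul ‖g‖)
    refine (norm_integral_le_integral_norm _).trans ?_
    rw [← integral_const_mul, ← integral_const_mul]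
    exact integral_mono_of_nonneg (ae_of_all _ fun s => norm_nonneg _)
      (((hFi k).const_mul _).const_mul _) (ae_of_all _ (hS2b k))
  -- the main term
  set S1 : ℕ → ℝ → ℂ := fun k s => ((g s : ℂ) * ((‖α s‖ ^ 2 : ℝ) : ℂ)) * (P k s : ℂ) with hS1
  have hgα : Measurable fun s => (g s : ℂ) * ((‖α s‖ ^ 2 : ℝ) : ℂ) :=
    (Complex.continuous_ofReal.comp g.continuous).measurable.mul
      (Complex.measurable_ofReal.comp (hα.norm.pow_const 2))
  have hgαb : ∀ s, ‖(g s : ℂ) * ((‖α s‖ ^ 2 : ℝ) : ℂ)‖ ≤ ‖g‖ * K ^ 2 := by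
    intro s
    have e1 : ‖((‖α s‖ ^ 2 : ℝ) : ℂ)‖ = ‖α s‖ ^ 2 := by
      rw [Complex.norm_real, Real.norm_of_nonneg (by positivity)]
    rw [norm_mul, e1, Complex.norm_real]
    exact mul_le_mul (g.norm_coe_le_norm s) (pow_le_pow_left₀ (norm_nonneg _) (hαK s) 2)
      (by positivity) hg0
  have hS1i : ∀ k, Integrable (S1 k) kap := by
    intro k
    refine ((hPi k).ofReal).bdd_mul (c := ‖g‖ * K ^ 2) hgα.aestronglyMeasurable ?_
    exact ae_of_all _ hgαb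
  have hDi : Integrable (fun s => ((g s : ℂ) * ((‖α s‖ ^ 2 : ℝ) : ℂ)) * (Dens μ s : ℂ)) kap := by
    refine ((cc_specD_integrable_Dens μ).ofReal).bdd_mul (c := ‖g‖ * K ^ 2)
      hgα.aestronglyMeasurable ?_
    exact ae_of_all _ hgαb
  have hS1lim : Tendsto (fun k => ∫ s, S1 k s ∂kap) atTop
      (𝓝 (∫ s, ((g s : ℂ) * ((‖α s‖ ^ 2 : ℝ) : ℂ)) * (Dens μ s : ℂ) ∂kap)) := by
    rw [tendsto_iff_norm_sub_tendsto_zero]
    have h1 : Tendsto (fun k => (‖g‖ * K ^ 2) * ∫ s, |P k s - Dens μ s| ∂kap) atTop (𝓝 0) := by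
      simpa using ((pois_tendsto_L1 hac).comp hφ.tendsto_atTop).const_mul (‖g‖ * K ^ 2)
    refine squeeze_zero (fun k => norm_nonneg _) (fun k => ?_) h1
    rw [← integral_sub (hS1i k) hDi, ← integral_const_mul]
    refine (norm_integral_le_integral_norm _).trans ?_
    refine integral_mono_of_nonneg (ae_of_all _ fun s => norm_nonneg _)
      (((hPi k).sub (cc_specD_integrable_Dens μ)).abs.const_mul _) (ae_of_all _ fun s => ?_)
    simp only [hS1]
    rw [← mul_sub, norm_mul, ← Complex.ofReal_sub, Complex.norm_real (P k s - Dens μ s),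
      Real.norm_eq_abs]
    exact mul_le_mul_of_nonneg_right (hgαb s) (abs_nonneg _)
  have hsplit : ∀ k, ∫ s, (g s : ℂ) * (((Zt (tk (φ k)) s).im : ℂ)
      * ⟪Rv H (Zt (tk (φ k)) s) (B ψ), Rv H (Zt (tk (φ k)) s) (B ψ)⟫_ℂ) ∂kap
      = ∫ s, S1 k s ∂kap + ∫ s, S2 k s ∂kap := by
    intro k
    rw [← integral_add (hS1i k) (hS2i k)]
    refine integral_congr_ae (ae_of_all _ fun s => ?_)
    simp only [hS1, hS2, hPR]
    have h1 : Rv H (z k s) (B ψ) = α s • Rv H (z k s) ψ + Rv H (z k s) (B ψ - α s • ψ) := by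
      rw [map_sub, map_smul]; abel
    show (g s : ℂ) * (((z k s).im : ℂ) * ⟪Rv H (z k s) (B ψ), Rv H (z k s) (B ψ)⟫_ℂ) = _
    have h2 : ⟪α s • Rv H (z k s) ψ, α s • Rv H (z k s) ψ⟫_ℂ
        = ((‖α s‖ ^ 2 * ‖Rv H (z k s) ψ‖ ^ 2 : ℝ) : ℂ) := by
      rw [inner_self_eq_norm_sq_to_K, norm_smul]
      push_cast
      simp only [RCLike.ofReal_alg, Complex.real_smul, mul_one]
      push_cast
      ring
    rw [h1, inner_add_left, inner_add_right, inner_add_right, h2]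
    push_cast
    ring
  have hfin := hS1lim.add hS2lim
  rw [add_zero] at hfin
  have h2 : (fun k => ∫ s, S1 k s ∂kap + ∫ s, S2 k s ∂kap)
      = ((fun k => ∫ s, (g s : ℂ) * (((Zt (tk k) s).im : ℂ)
      * ⟪Rv H (Zt (tk k) s) (B ψ), Rv H (Zt (tk k) s) (B ψ)⟫_ℂ) ∂kap) ∘ φ) := by
    funext k
    exact (hsplit k).symm
  rw [h2] at hfin
  rw [tendsto_nhds_unique hJ hfin, integral_Dens hac hgα hgαb]

theorem qe_spec_norm {H B : E →L[ℂ] E} (hH : IsSelfAdjoint H) (hcomm : Commute B H) {K : ℝ}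
    (hK : ‖B‖ ≤ K) {α : ℝ → ℂ} (hα : Measurable α) (hαK : ∀ s, ‖α s‖ ≤ K)
    (ho : Orthonormal ℂ e) (tot : ∀ u : E, (∀ x, ⟪e x, u⟫_ℂ = 0) → u = 0) {φ : ℕ → ℕ}
    (hφ : StrictMono φ)
    (h : ∀ᵐ s ∂kap, ∀ x, Tendsto (fun k => (Zt (tk (φ k)) s).im
      * ‖Rv H (Zt (tk (φ k)) s) (B (e x) - α s • e x)‖ ^ 2) atTop (𝓝 0))
    {ψ : E} {μ : Measure ℝ} [IsFiniteMeasure μ] (hμ : IsSpec H ψ μ) (hac : μ ≪ volume)
    (f : BoundedContinuousFunction ℝ ℝ) :
    ⟪B ψ, cfc (⇑f) H (B ψ)⟫_ℂ = ∫ s, (f s : ℂ) * ((‖α s‖ ^ 2 : ℝ) : ℂ) ∂μ := by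
  let g : BoundedContinuousFunction ℝ ℝ :=
    BoundedContinuousFunction.ofNormedAddCommGroup (fun l => f l * (1 + min (l ^ 2) (‖H‖ ^ 2)))
      (f.continuous.mul (by fun_prop)) (‖f‖ * (1 + ‖H‖ ^ 2)) (fun l => by
        have h0 : 0 ≤ min (l ^ 2) (‖H‖ ^ 2) := le_min (by positivity) (by positivity)
        rw [norm_mul, Real.norm_of_nonneg (by linarith : (0:ℝ) ≤ 1 + min (l ^ 2) (‖H‖ ^ 2))]
        exact mul_le_mul (f.norm_coe_le_norm l) (by
          have := min_le_right (l ^ 2) (‖H‖ ^ 2); linarith) (by linarith) (norm_nonneg _))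
  have hg : ∀ l : ℝ, |l| ≤ ‖H‖ → g l * (1 + l ^ 2)⁻¹ = f l := by
    intro l hl
    have h1 : min (l ^ 2) (‖H‖ ^ 2) = l ^ 2 := by
      refine min_eq_left ?_
      rw [← sq_abs]
      exact pow_le_pow_left₀ (abs_nonneg _) hl 2
    show f l * (1 + min (l ^ 2) (‖H‖ ^ 2)) * (1 + l ^ 2)⁻¹ = f l
    rw [h1]
    have : (1 + l ^ 2) ≠ 0 := by positivity
    field_simp
  have h1 := qe_specE_main hH hcomm hK hα hαK ho tot hφ h hμ hac g
  have h2 : cfc (fun l : ℝ => g l * (1 + l ^ 2)⁻¹) H = cfc (⇑f) H :=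
    cfc_congr fun l hl => hg l (cc_specD_spectrum hl)
  rw [h2] at h1
  rw [h1]
  refine integral_congr_ae ?_
  filter_upwards [cc_specD_carrier hμ] with l hl
  rw [← hg l hl]
  push_cast
  ring

/-- `B ψ = α(H) ψ` for every `ψ` in the absolutely continuous subspace -/
theorem qe_spec_eq {H B : E →L[ℂ] E} (hH : IsSelfAdjoint H) (hcomm : Commute B H) {K : ℝ}
    (hK : ‖B‖ ≤ K) {α : ℝ → ℂ} (hα : Measurable α) (hαK : ∀ s, ‖α s‖ ≤ K)
    (ho : Orthonormal ℂ e) (tot : ∀ u : E, (∀ x, ⟪e x, u⟫_ℂ = 0) → u = 0) {φ : ℕ → ℕ}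
    (hφ : StrictMono φ)
    (h : ∀ᵐ s ∂kap, ∀ x, Tendsto (fun k => (Zt (tk (φ k)) s).im
      * ‖Rv H (Zt (tk (φ k)) s) (B (e x) - α s • e x)‖ ^ 2) atTop (𝓝 0))
    {ψ : E} {μ : Measure ℝ} [IsFiniteMeasure μ] (hμ : IsSpec H ψ μ) (hac : μ ≪ volume)
    (f g : BoundedContinuousFunction ℝ ℝ) :
    ‖B ψ - (cfc (⇑f) H ψ + I • cfc (⇑g) H ψ)‖ ^ 2
      = ∫ s, ‖α s - ((f s : ℂ) + I * (g s : ℂ))‖ ^ 2 ∂μ := by
  have hF := spec_final hH hcomm hK hα hαK ho tot hφ h hμ hac f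
  have hG := spec_final hH hcomm hK hα hαK ho tot hφ h hμ hac g
  have hN := qe_spec_norm hH hcomm hK hα hαK ho tot hφ h hμ hac (1 : BoundedContinuousFunction ℝ ℝ)
  have hsaf : ∀ f : BoundedContinuousFunction ℝ ℝ, IsSelfAdjoint (cfc (⇑f) H) := fun f =>
    cfc_predicate _ _
  have hsym : ∀ (f : BoundedContinuousFunction ℝ ℝ) (u v : E),
      ⟪cfc (⇑f) H u, v⟫_ℂ = ⟪u, cfc (⇑f) H v⟫_ℂ := fun f u v =>
    (hsaf f).isSymmetric u v
  have hmul : ∀ f g : BoundedContinuousFunction ℝ ℝ,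
      ⟪cfc (⇑f) H ψ, cfc (⇑g) H ψ⟫_ℂ = ((∫ s, f s * g s ∂μ : ℝ) : ℂ) := by
    intro f g
    rw [hsym]
    have h1 := hμ (f * g)
    have h2 : cfc (⇑(f * g)) H = cfc (⇑f) H * cfc (⇑g) H := by
      have := cfc_mul (R := ℝ) (⇑f) (⇑g) H f.continuous.continuousOn g.continuous.continuousOn
      rw [← this]
      rfl
    rw [h2] at h1
    exact h1.symm
  have hint : ∀ f g : BoundedContinuousFunction ℝ ℝ, Integrable (fun s => f s * g s) μ :=
    fun f g => (f * g).integrable μ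
  have hαi : Integrable α μ := Integrable.of_bound (C := K) hα.aestronglyMeasurable
    (ae_of_all _ hαK)
  have hfα : ∀ f : BoundedContinuousFunction ℝ ℝ, Integrable (fun s => (f s : ℂ) * α s) μ := by
    intro f
    refine Integrable.of_bound (C := ‖f‖ * K) ((Complex.continuous_ofReal.comp
      f.continuous).measurable.mul hα).aestronglyMeasurable (ae_of_all _ fun s => ?_)
    rw [norm_mul, Complex.norm_real]
    exact mul_le_mul (f.norm_coe_le_norm s) (hαK s) (norm_nonneg _) (norm_nonneg _)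
  have hα2 : Integrable (fun s => ‖α s‖ ^ 2) μ := by
    refine Integrable.of_bound (C := K ^ 2) (hα.norm.pow_const 2).aestronglyMeasurable
      (ae_of_all _ fun s => ?_)
    rw [Real.norm_of_nonneg (by positivity)]
    exact pow_le_pow_left₀ (norm_nonneg _) (hαK s) 2
  -- the norm of `B ψ`
  have hN' : ‖B ψ‖ ^ 2 = ∫ s, ‖α s‖ ^ 2 ∂μ := by
    have h1 : cfc (⇑(1 : BoundedContinuousFunction ℝ ℝ)) H = 1 := by
      have : (⇑(1 : BoundedContinuousFunction ℝ ℝ) : ℝ → ℝ) = fun _ => 1 := rfl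
      rw [this]
      exact cfc_const_one ℝ H
    rw [h1] at hN
    have h2 : ∫ s, (((1 : BoundedContinuousFunction ℝ ℝ) s : ℝ) : ℂ)
        * ((‖α s‖ ^ 2 : ℝ) : ℂ) ∂μ = ((∫ s, ‖α s‖ ^ 2 ∂μ : ℝ) : ℂ) := by
      have e1 := integral_ofReal (μ := μ) (𝕜 := ℂ) (f := fun s => ‖α s‖ ^ 2)
      refine Eq.trans ?_ e1
      refine integral_congr_ae (ae_of_all _ fun s => ?_)
      simp
    rw [h2] at hN
    have h3 : ⟪B ψ, (1 : E →L[ℂ] E) (B ψ)⟫_ℂ = ((‖B ψ‖ ^ 2 : ℝ) : ℂ) := by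
      show ⟪B ψ, B ψ⟫_ℂ = _
      rw [inner_self_eq_norm_sq_to_K]; norm_cast
    rw [h3] at hN
    exact_mod_cast hN
  set u := cfc (⇑f) H ψ with hu
  set w := cfc (⇑g) H ψ with hw
  have hin : (⟪B ψ, u + I • w⟫_ℂ).re = ∫ s, (f s * (α s).re + g s * (α s).im) ∂μ := by
    rw [inner_add_right, inner_smul_right]
    have e1 : ⟪B ψ, u⟫_ℂ = (starRingEnd ℂ) (∫ s, (f s : ℂ) * α s ∂μ) := by
      rw [← hF, inner_conj_symm, hsym]
    have e2 : ⟪B ψ, w⟫_ℂ = (starRingEnd ℂ) (∫ s, (g s : ℂ) * α s ∂μ) := by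
      rw [← hG, inner_conj_symm, hsym]
    have r1 : (∫ s, (f s : ℂ) * α s ∂μ).re = ∫ s, f s * (α s).re ∂μ := by
      have := integral_re (hfα f)
      simp only [RCLike.re_to_complex] at this
      rw [← this]
      refine integral_congr_ae (ae_of_all _ fun s => ?_)
      simp
    have r2 : (∫ s, (g s : ℂ) * α s ∂μ).im = ∫ s, g s * (α s).im ∂μ := by
      have := integral_im (hfα g)
      simp only [RCLike.im_to_complex] at this
      rw [← this]
      refine integral_congr_ae (ae_of_all _ fun s => ?_)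
      simp
    have i1 : Integrable (fun s => f s * (α s).re) μ := by
      have := (hfα f).re
      refine this.congr (ae_of_all _ fun s => ?_)
      simp
    have i2 : Integrable (fun s => g s * (α s).im) μ := by
      have := (hfα g).im
      refine this.congr (ae_of_all _ fun s => ?_)
      simp
    rw [e1, e2, Complex.add_re, Complex.conj_re, r1, integral_add i1 i2, ← r2]
    simp
  have hun : ‖u + I • w‖ ^ 2 = ∫ s, (f s * f s + g s * g s) ∂μ := by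
    have h1 : ((‖u + I • w‖ ^ 2 : ℝ) : ℂ) = ⟪u + I • w, u + I • w⟫_ℂ := by
      rw [inner_self_eq_norm_sq_to_K]; norm_cast
    rw [inner_add_left, inner_add_right, inner_add_right, inner_smul_left, inner_smul_left,
      inner_smul_right, inner_smul_right, hmul f f, hmul g g, hmul f g, hmul g f] at h1
    have h2 : ∫ s, g s * f s ∂μ = ∫ s, f s * g s ∂μ := by
      simp_rw [mul_comm]
    rw [h2, Complex.conj_I] at h1
    rw [integral_add (hint f f) (hint g g)]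
    have h3 : ((‖u + I • w‖ ^ 2 : ℝ) : ℂ)
        = ((∫ s, f s * f s ∂μ + ∫ s, g s * g s ∂μ : ℝ) : ℂ) := by
      rw [h1]
      push_cast
      linear_combination (-(∫ s, g s * g s ∂μ : ℝ) : ℂ) * I_sq
    exact_mod_cast h3
  have hexp : ‖B ψ - (u + I • w)‖ ^ 2 = ‖B ψ‖ ^ 2 - 2 * (⟪B ψ, u + I • w⟫_ℂ).re
      + ‖u + I • w‖ ^ 2 := by
    have := norm_sub_sq (𝕜 := ℂ) (B ψ) (u + I • w)
    rw [this]; rfl
  rw [hexp, hN', hin, hun]
  have i3 : Integrable (fun s => f s * (α s).re + g s * (α s).im) μ := by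
    refine Integrable.add ?_ ?_
    · have := (hfα f).re
      refine this.congr (ae_of_all _ fun s => ?_)
      simp
    · have := (hfα g).im
      refine this.congr (ae_of_all _ fun s => ?_)
      simp
  have i4 : Integrable (fun s => ‖α s‖ ^ 2 - 2 * (f s * (α s).re + g s * (α s).im)) μ :=
    hα2.sub (i3.const_mul 2)
  have i5 : Integrable (fun s => f s * f s + g s * g s) μ := (hint f f).add (hint g g)
  rw [← integral_const_mul, ← integral_sub hα2 (i3.const_mul 2), ← integral_add i4 i5]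
  refine integral_congr_ae (ae_of_all _ fun s => ?_)
  simp only
  rw [← Complex.normSq_eq_norm_sq, ← Complex.normSq_eq_norm_sq, Complex.normSq_apply,
    Complex.normSq_apply]
  simp only [Complex.sub_re, Complex.sub_im, Complex.add_re, Complex.add_im, Complex.ofReal_re,
    Complex.ofReal_im, Complex.mul_re, Complex.mul_im, Complex.I_re, Complex.I_im]
  ring

end Pool.Agent.Lib.MP_562b47_mp
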