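import Mathlib
import Pool.Agent.Lib.MP_562b47_mp.Qe.Erg

/-!
The trace per unit volume.  (Anderson model, MP_562b47_mp.)
-/

open MeasureTheory Set Filter Topology Complex
open scoped Real ENNReal NNReal InnerProductSpace

set_option linter.unusedSectionVars false

namespace Pool.Agent.Lib.MP_562b47_mp

variable {Λ : Type*} [DecidableEq Λ] [AddCommGroup Λ] [Countable Λ] {E : Type*}
  [NormedAddCommGroup E] [InnerProductSpace ℂ E] [CompleteSpace E] {c : ℝ} {e : Λ → E}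
  {H : (Λ → ℝ) → (E →L[ℂ] E)} {A B D X Y : (Λ → ℝ) → (E →L[ℂ] E)} {K L : ℝ}
  {V : Λ → (E ≃ₗᵢ[ℂ] E)}

theorem MCov.summable_prod (M : Model c e H) (hX : MCov c e X K) (hY : MCov c e Y L) :
    Summable fun w => ∫ ω, ‖⟪e 0, X ω (e w)⟫_ℂ * ⟪e w, Y ω (e 0)⟫_ℂ‖ ∂(PP Λ c) := by
  have := PP_prob Λ M.hc
  have hsq : ∀ {Z : (Λ → ℝ) → (E →L[ℂ] E)} {N : ℝ}, MCov c e Z N → ∀ x y,
      Integrable (fun ω => ‖⟪e x, Z ω (e y)⟫_ℂ‖ ^ 2) (PP Λ c) := by
    intro Z N hZ x y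
    refine Integrable.of_bound (C := N ^ 2) (((hZ.meas x y).norm).pow_const 2).aestronglyMeasurable
      (ae_of_all _ fun ω => ?_)
    rw [Real.norm_of_nonneg (by positivity)]
    refine pow_le_pow_left₀ (norm_nonneg _) ?_ 2
    have h1 := norm_inner_le_norm (𝕜 := ℂ) (e x) (Z ω (e y))
    rw [M.ortho.1 x, one_mul] at h1
    exact h1.trans (hZ.norm_apply_le M ω y)
  have hsum : ∀ {Z : (Λ → ℝ) → (E →L[ℂ] E)} {N : ℝ}, MCov c e Z N →
      Summable fun w => ∫ ω, ‖⟪e w, Z ω (e 0)⟫_ℂ‖ ^ 2 ∂(PP Λ c) := by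
    intro Z N hZ
    refine summable_of_sum_le (fun w => integral_nonneg fun ω => by positivity)
      (c := N ^ 2) fun s => ?_
    rw [← integral_finsetSum _ fun w _ => hsq hZ w 0]
    calc ∫ ω, ∑ w ∈ s, ‖⟪e w, Z ω (e 0)⟫_ℂ‖ ^ 2 ∂(PP Λ c)
        ≤ ∫ _ω, N ^ 2 ∂(PP Λ c) := by
          refine integral_mono_of_nonneg (ae_of_all _ fun ω => by positivity)
            (integrable_const _) (ae_of_all _ fun ω => ?_)
          have h1 := M.ortho.sum_inner_products_le (x := Z ω (e 0)) (s := s)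
          exact h1.trans (pow_le_pow_left₀ (norm_nonneg _) (hZ.norm_apply_le M ω 0) 2)
      _ = N ^ 2 := by simp
  have hX' := hsum hX.adjoint
  have hY' := hsum hY
  refine Summable.of_nonneg_of_le (fun w => integral_nonneg fun ω => norm_nonneg _)
    (fun w => ?_) (hX'.add hY')
  rw [← integral_add (hsq hX.adjoint w 0) (hsq hY w 0)]
  refine integral_mono_of_nonneg (ae_of_all _ fun ω => norm_nonneg _)
    ((hsq hX.adjoint w 0).add (hsq hY w 0)) (ae_of_all _ fun ω => ?_)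
  simp only [norm_mul]
  have h1 : ‖⟪e w, (X ω).adjoint (e 0)⟫_ℂ‖ = ‖⟪e 0, X ω (e w)⟫_ℂ‖ := by
    rw [inner_adjoint_eq, Complex.norm_conj]
  rw [h1]
  nlinarith [sq_nonneg (‖⟪e 0, X ω (e w)⟫_ℂ‖ - ‖⟪e w, Y ω (e 0)⟫_ℂ‖),
    sq_nonneg (‖⟪e 0, X ω (e w)⟫_ℂ‖), sq_nonneg (‖⟪e w, Y ω (e 0)⟫_ℂ‖)]

theorem MCov.integral_mul (M : Model c e H) (hX : MCov c e X K) (hY : MCov c e Y L) :
    ∫ ω, ⟪e 0, (X ω * Y ω) (e 0)⟫_ℂ ∂(PP Λ c)
      = ∑' w, ∫ ω, ⟪e 0, X ω (e w)⟫_ℂ * ⟪e w, Y ω (e 0)⟫_ℂ ∂(PP Λ c) := by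
  have := PP_prob Λ M.hc
  have h1 := hasSum_integral_of_summable_integral_norm (μ := PP Λ c)
    (F := fun w ω => ⟪e 0, X ω (e w)⟫_ℂ * ⟪e w, Y ω (e 0)⟫_ℂ) (fun w => by
      refine Integrable.of_bound (C := K * L) ((hX.meas 0 w).mul (hY.meas w 0)).aestronglyMeasurable
        (ae_of_all _ fun ω => ?_)
      rw [norm_mul]
      have h1 := norm_inner_le_norm (𝕜 := ℂ) (e 0) (X ω (e w))
      rw [M.ortho.1 0, one_mul] at h1
      have h2 := norm_inner_le_norm (𝕜 := ℂ) (e w) (Y ω (e 0))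
      rw [M.ortho.1 w, one_mul] at h2
      exact mul_le_mul (h1.trans (hX.norm_apply_le M ω w)) (h2.trans (hY.norm_apply_le M ω 0))
        (norm_nonneg _) hX.nonneg) (hX.summable_prod M hY)
  rw [h1.tsum_eq]
  refine integral_congr_ae (ae_of_all _ fun ω => ?_)
  exact (M.hasSum_inner (X ω) (e 0) (Y ω (e 0))).tsum_eq.symm

/-- the trace per unit volume is a trace -/
theorem MCov.trace_comm (M : Model c e H) (hX : MCov c e X K) (hY : MCov c e Y L) :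
    ∫ ω, ⟪e 0, (X ω * Y ω) (e 0)⟫_ℂ ∂(PP Λ c) = ∫ ω, ⟪e 0, (Y ω * X ω) (e 0)⟫_ℂ ∂(PP Λ c) := by
  have := PP_prob Λ M.hc
  have := unif_prob M.hc
  rw [hX.integral_mul M hY, hY.integral_mul M hX]
  rw [← (Equiv.neg Λ).tsum_eq (fun w => ∫ ω, ⟪e 0, Y ω (e w)⟫_ℂ * ⟪e w, X ω (e 0)⟫_ℂ ∂(PP Λ c))]
  refine tsum_congr fun w => ?_
  rw [Equiv.neg_apply]
  have hsh := measurePreserving_shift (Λ := Λ) (unif c) w
  have h6 := integral_map (μ := PP Λ c) (φ := fun ω : Λ → ℝ => fun j => ω (j + w))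
    (f := fun ω => ⟪e 0, Y ω (e (-w))⟫_ℂ * ⟪e (-w), X ω (e 0)⟫_ℂ) hsh.measurable.aemeasurable
    ((hY.meas 0 (-w)).mul (hX.meas (-w) 0)).aestronglyMeasurable
  have h8 : Measure.map (fun ω : Λ → ℝ => fun j => ω (j + w)) (PP Λ c) = PP Λ c := hsh.map_eq
  rw [h8] at h6
  rw [h6]
  refine integral_congr_ae ?_
  filter_upwards [hY.cov w 0 (-w), hX.cov w (-w) 0] with ω h1 h2
  rw [h1, h2, zero_add, neg_add_cancel, mul_comm]

/-- the trace is invariant under the dynamics -/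
theorem InC.trace_eq (M : Model c e H) (hV : Trans e V) (hH : CovOp V H) (hA : MCov c e A K)
    (hX : MCov c e X L) (hXH : ∀ ω, Commute (X ω) (H ω)) (hD : InC H A D) :
    ∫ ω, ⟪e 0, X ω (D ω (e 0))⟫_ℂ ∂(PP Λ c) = ∫ ω, ⟪e 0, X ω (A ω (e 0))⟫_ℂ ∂(PP Λ c) := by
  have := PP_prob Λ M.hc
  have hint : ∀ {Z : (Λ → ℝ) → (E →L[ℂ] E)} {N : ℝ}, MCov c e Z N →
      Integrable (fun ω => ⟪e 0, Z ω (e 0)⟫_ℂ) (PP Λ c) := by
    intro Z N hZ
    refine Integrable.of_bound (C := N) (hZ.meas 0 0).aestronglyMeasurable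
      (ae_of_all _ fun ω => ?_)
    have h1 := norm_inner_le_norm (𝕜 := ℂ) (e 0) (Z ω (e 0))
    rw [M.ortho.1 0, one_mul] at h1
    exact h1.trans (hZ.norm_apply_le M ω 0)
  induction hD with
  | base s =>
    have h1 := ((hX.mul M (mcov_Ut M hV hH (-s))).mul M hA).trace_comm M (mcov_Ut M hV hH s)
    refine Eq.trans ?_ (h1.trans ?_)
    · refine integral_congr_ae (ae_of_all _ fun ω => ?_)
      show ⟪e 0, (X ω * (Ut H ω (-s) * A ω * Ut H ω s)) (e 0)⟫_ℂ = _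
      simp only [mul_assoc]
    · refine integral_congr_ae (ae_of_all _ fun ω => ?_)
      show _ = ⟪e 0, (X ω * A ω) (e 0)⟫_ℂ
      have h2 : Commute (X ω) (Ut H ω s) := by
        unfold Ut
        exact ((hXH ω).smul_right _).exp_right
      have h3 : Ut H ω s * (X ω * Ut H ω (-s) * A ω) = X ω * A ω := by
        calc Ut H ω s * (X ω * Ut H ω (-s) * A ω) = (Ut H ω s * X ω) * Ut H ω (-s) * A ω := by
              simp only [mul_assoc]
          _ = X ω * (Ut H ω s * Ut H ω (-s)) * A ω := by rw [← h2.eq]; simp only [mul_assoc]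
          _ = X ω * A ω := by rw [← Ut_add, add_neg_cancel, Ut_zero, mul_one]
      simp only
      rw [h3]
  | @half D D' hD hD' h1 h2 =>
    have i1 := hint (hX.mul M (hD.mcov M hV hH hA))
    have i2 := hint (hX.mul M (hD'.mcov M hV hH hA))
    have e1 : ∀ ω, ⟪e 0, X ω (((1 / 2 : ℂ) • (D ω + D' ω)) (e 0))⟫_ℂ
        = (1 / 2 : ℂ) * (⟪e 0, (X ω * D ω) (e 0)⟫_ℂ + ⟪e 0, (X ω * D' ω) (e 0)⟫_ℂ) := by
      intro ω
      rw [smul_apply, add_apply, map_smul, map_add, inner_smul_right, inner_add_right]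
      rfl
    simp_rw [e1]
    rw [integral_const_mul, integral_add i1 i2]
    have h1' : ∫ ω, ⟪e 0, (X ω * D ω) (e 0)⟫_ℂ ∂(PP Λ c)
        = ∫ ω, ⟪e 0, X ω (A ω (e 0))⟫_ℂ ∂(PP Λ c) := h1
    have h2' : ∫ ω, ⟪e 0, (X ω * D' ω) (e 0)⟫_ℂ ∂(PP Λ c)
        = ∫ ω, ⟪e 0, X ω (A ω (e 0))⟫_ℂ ∂(PP Λ c) := h2
    rw [h1', h2']
    ring

/-- **Mean ergodic theorem**: the time averages of a bounded measurable covariant family converge
in mean square to a bounded measurable covariant family which commutes with `H`. -/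
theorem mean_erg_trace (M : Model c e H) (hV : Trans e V) (hH : CovOp V H)
    (hA : MCov c e A K) :
    ∃ B : (Λ → ℝ) → (E →L[ℂ] E), MCov c e B K ∧ (∀ᵐ ω ∂(PP Λ c), Commute (B ω) (H ω)) ∧
      (∀ x, Tendsto (fun T : ℝ => ∫⁻ ω, ‖TA H ω (A ω) T (e x) - B ω (e x)‖ₑ ^ 2 ∂(PP Λ c))
        atTop (𝓝 0)) ∧
      ∀ (X : (Λ → ℝ) → (E →L[ℂ] E)) (L : ℝ), MCov c e X L → (∀ ω, Commute (X ω) (H ω)) →
        ∫ ω, ⟪e 0, X ω (B ω (e 0))⟫_ℂ ∂(PP Λ c) = ∫ ω, ⟪e 0, X ω (A ω (e 0))⟫_ℂ ∂(PP Λ c) := by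
  classical
  have := PP_prob Λ M.hc
  set S : Set ℝ := {r | ∃ D, InC H A D ∧ r = MS c e D} with hS
  have hSb : BddBelow S := ⟨0, by rintro r ⟨D, _, rfl⟩; exact MS_nonneg⟩
  have hSn : S.Nonempty := ⟨_, _, InC.base 0, rfl⟩
  set m := sInf S with hmdef
  have hm : ∀ D, InC H A D → m ≤ MS c e D := fun D hD => csInf_le hSb ⟨D, hD, rfl⟩
  have hex : ∀ n : ℕ, ∃ D, InC H A D ∧ MS c e D ≤ m + (1 / 16) ^ n := by
    intro n
    have h1 : (0 : ℝ) < (1 / 16) ^ n := by positivity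
    obtain ⟨r, ⟨D, hD, rfl⟩, hr⟩ := exists_lt_of_csInf_lt hSn
      (show sInf S < m + (1 / 16) ^ n by rw [← hmdef]; linarith)
    exact ⟨D, hD, hr.le⟩
  choose D hD hDm using hex
  obtain ⟨B, hB, hBH, hBl⟩ := qe_exists_B M hV hH hA hm D hD hDm
  have hF := qe_fatou M hV hH hA hm D hD hDm hBl
  refine ⟨B, hB, hBH, fun x => ?_, fun X L hX hXH => ?_⟩
  swap
  · have hint : ∀ {Z : (Λ → ℝ) → (E →L[ℂ] E)} {N : ℝ}, MCov c e Z N →
        Integrable (fun ω => ⟪e 0, Z ω (e 0)⟫_ℂ) (PP Λ c) := by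
      intro Z N hZ
      refine Integrable.of_bound (C := N) (hZ.meas 0 0).aestronglyMeasurable
        (ae_of_all _ fun ω => ?_)
      have h1 := norm_inner_le_norm (𝕜 := ℂ) (e 0) (Z ω (e 0))
      rw [M.ortho.1 0, one_mul] at h1
      exact h1.trans (hZ.norm_apply_le M ω 0)
    have h1 : Tendsto (fun n => ∫ ω, ⟪e 0, (X ω * D n ω) (e 0)⟫_ℂ ∂(PP Λ c)) atTop
        (𝓝 (∫ ω, ⟪e 0, (X ω * B ω) (e 0)⟫_ℂ ∂(PP Λ c))) := by
      refine tendsto_integral_of_dominated_convergence (fun _ => L * K)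
        (fun n => ((hX.mul M ((hD n).mcov M hV hH hA)).meas 0 0).aestronglyMeasurable)
        (integrable_const _) (fun n => ae_of_all _ fun ω => ?_) ?_
      · have h1 := norm_inner_le_norm (𝕜 := ℂ) (e 0) ((X ω * D n ω) (e 0))
        rw [M.ortho.1 0, one_mul] at h1
        exact h1.trans ((hX.mul M ((hD n).mcov M hV hH hA)).norm_apply_le M ω 0)
      · filter_upwards [hBl] with ω hω
        exact tendsto_const_nhds.inner (((X ω).continuous.tendsto _).comp (hω (e 0)))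
    have h2 : ∀ n, ∫ ω, ⟪e 0, (X ω * D n ω) (e 0)⟫_ℂ ∂(PP Λ c)
        = ∫ ω, ⟪e 0, X ω (A ω (e 0))⟫_ℂ ∂(PP Λ c) := fun n =>
      (hD n).trace_eq M hV hH hA hX hXH
    simp_rw [h2] at h1
    exact (tendsto_nhds_unique h1 tendsto_const_nhds)
  rw [ENNReal.tendsto_nhds_zero]
  intro ε hε
  obtain ⟨r, hr0, hrε⟩ := ENNReal.lt_iff_exists_nnreal_btwn.1 hε
  have hr : (0 : ℝ) < r := by exact_mod_cast hr0
  obtain ⟨n, hn⟩ : ∃ n : ℕ, 4 * (1 / 16 : ℝ) ^ n ≤ r / 4 := by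
    obtain ⟨n, hn⟩ := exists_pow_lt_of_lt_one (show (0 : ℝ) < r / 16 by positivity)
      (show (1 / 16 : ℝ) < 1 by norm_num)
    exact ⟨n, by linarith⟩
  obtain ⟨C, hC0, hC⟩ := qe_TA_diff M hA (hD n)
  have hlim : Tendsto (fun T : ℝ => 2 * (T⁻¹ * C) ^ 2) atTop (𝓝 0) := by
    have h1 := ((tendsto_inv_atTop_zero (𝕜 := ℝ)).mul_const C).pow 2
    have h2 := h1.const_mul 2
    simpa using h2
  filter_upwards [eventually_gt_atTop 0, hlim.eventually (gt_mem_nhds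
    (show (0:ℝ) < r / 2 by positivity))] with T hT0 hT
  have h2 : (2 : ℝ≥0∞) = ENNReal.ofReal 2 := by simp
  have hDn := (hD n).mcov M hV hH hA
  have key : ∀ᵐ ω ∂(PP Λ c), ‖TA H ω (A ω) T (e x) - B ω (e x)‖ₑ ^ 2
      ≤ ENNReal.ofReal (2 * (T⁻¹ * C) ^ 2) + 2 * ‖TA H ω (D n ω - B ω) T (e x)‖ₑ ^ 2 := by
    filter_upwards [hBH] with ω hω
    have h3 : TA H ω (D n ω - B ω) T = TA H ω (D n ω) T - B ω := by
      rw [TA_sub, TA_of_commute hω hT0]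
    have h4 := me_sq_tri (TA H ω (A ω) T (e x)) (TA H ω (D n ω) T (e x)) (B ω (e x))
    rw [h3]
    refine h4.trans ?_
    gcongr
    · rw [h2, ← ofReal_norm, ← ENNReal.ofReal_pow (norm_nonneg _),
        ← ENNReal.ofReal_mul (by norm_num)]
      refine ENNReal.ofReal_le_ofReal ?_
      have h5 : ‖TA H ω (A ω) T (e x) - TA H ω (D n ω) T (e x)‖ ≤ T⁻¹ * C := by
        have h6 := (TA H ω (A ω) T - TA H ω (D n ω) T).le_opNorm (e x)
        rw [M.ortho.1 x, mul_one] at h6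
        exact h6.trans (hC T ω hT0)
      have h7 := pow_le_pow_left₀ (norm_nonneg _) h5 2
      linarith
    · rfl
  calc ∫⁻ ω, ‖TA H ω (A ω) T (e x) - B ω (e x)‖ₑ ^ 2 ∂(PP Λ c)
      ≤ ∫⁻ ω, (ENNReal.ofReal (2 * (T⁻¹ * C) ^ 2)
          + 2 * ‖TA H ω (D n ω - B ω) T (e x)‖ₑ ^ 2) ∂(PP Λ c) := lintegral_mono_ae key
    _ = ENNReal.ofReal (2 * (T⁻¹ * C) ^ 2)
        + 2 * ∫⁻ ω, ‖TA H ω (D n ω - B ω) T (e x)‖ₑ ^ 2 ∂(PP Λ c) := by
        rw [lintegral_add_left measurable_const, lintegral_const, measure_univ, mul_one,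
          lintegral_const_mul' _ _ (by simp)]
    _ ≤ ENNReal.ofReal (r / 2) + 2 * ENNReal.ofReal (4 * (1 / 16) ^ n) := by
        gcongr
        exact ((hDn.sub hB).avg M hV hH x hT0).trans (hF n 0)
    _ ≤ ENNReal.ofReal (r / 2) + 2 * ENNReal.ofReal (r / 4) := by
        gcongr
    _ = ENNReal.ofReal r := by
        rw [h2, ← ENNReal.ofReal_mul (by norm_num), ← ENNReal.ofReal_add (by positivity)
          (by positivity)]
        congr 1
        ring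
    _ ≤ ε := by
        rw [ENNReal.ofReal_coe_nnreal]
        exact hrε.le

end Pool.Agent.Lib.MP_562b47_mp
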