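import Mathlib
import Pool.Agent.Lib.MP_562b47_mp.Qe.Trace
import Pool.Agent.Lib.MP_562b47_mp.Qe.SpecE
import Pool.Agent.Lib.MP_562b47_mp.Cc.Alpha
import Pool.Agent.Lib.MP_562b47_mp.WindowB

/-!
Quantum ergodicity on the absolutely continuous subspace.
(Anderson model, MP_562b47_mp.)
-/

open MeasureTheory Set Filter Topology Complex
open scoped Real ENNReal NNReal InnerProductSpace

set_option linter.unusedSectionVars false

namespace Pool.Agent.Lib.MP_562b47_mp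

section abstract

variable {Λ : Type*} [DecidableEq Λ] [AddCommGroup Λ] [Countable Λ] {E : Type*}
  [NormedAddCommGroup E] [InnerProductSpace ℂ E] [CompleteSpace E] {c : ℝ} {e : Λ → E}
  {H : (Λ → ℝ) → (E →L[ℂ] E)} {A B : (Λ → ℝ) → (E →L[ℂ] E)} {K L : ℝ}
  {V : Λ → (E ≃ₗᵢ[ℂ] E)}

/-- covariant operators which commute with `H` are functions of `H` on the absolutely continuous
subspace -/
theorem Model.trivial_commutant (M : Model c e H) (hcov : ShiftCov e H)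
    (hB : MCov c e B K) (hBH : ∀ᵐ ω ∂(PP Λ c), Commute (B ω) (H ω)) :
    ∃ α : ℝ → ℂ, Measurable α ∧ (∀ s, ‖α s‖ ≤ K) ∧
      ∀ᵐ ω ∂(PP Λ c), ∀ (ψ : E) (μ : Measure ℝ), IsFiniteMeasure μ → IsSpec (H ω) ψ μ →
        μ ≪ volume → ∀ f g : BoundedContinuousFunction ℝ ℝ,
        ‖B ω ψ - (cfc (⇑f) (H ω) ψ + I • cfc (⇑g) (H ω) ψ)‖ ^ 2
          = ∫ s, ‖α s - ((f s : ℂ) + I * (g s : ℂ))‖ ^ 2 ∂μ := by
  obtain ⟨α, h1, h2, φ, hφ, h3⟩ := M.exists_alpha hcov M.hasDens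
    (K := K) (B := B) ⟨hB.bdd, hB.meas, hB.cov, hBH⟩
  refine ⟨α, h1, h2, ?_⟩
  filter_upwards [h3, hBH] with ω hω hω2 ψ μ hfin hμ hac f g
  exact qe_spec_eq (M.sa ω) hω2 (hB.bdd ω) h1 h2 M.ortho M.tot hφ hω hμ hac f g

theorem Model.quantum_ergodicity (M : Model c e H) (hcov : ShiftCov e H) (hV : Trans e V)
    (hH : CovOp V H) (hA : MCov c e A K) :
    ∃ (B : (Λ → ℝ) → (E →L[ℂ] E)) (α : ℝ → ℂ), MCov c e B K ∧
      (∀ᵐ ω ∂(PP Λ c), Commute (B ω) (H ω)) ∧ Measurable α ∧ (∀ s, ‖α s‖ ≤ K) ∧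
      (∀ x, Tendsto (fun T : ℝ => ∫⁻ ω, ‖TA H ω (A ω) T (e x) - B ω (e x)‖ₑ ^ 2 ∂(PP Λ c))
        atTop (𝓝 0)) ∧
      (∀ n : ℕ, ∫ ω, ⟪e 0, ((H ω) ^ n) (B ω (e 0))⟫_ℂ ∂(PP Λ c)
        = ∫ ω, ⟪e 0, ((H ω) ^ n) (A ω (e 0))⟫_ℂ ∂(PP Λ c)) ∧
      ((∀ᵐ ω ∂(PP Λ c), Commute (A ω) (H ω)) → ∀ᵐ ω ∂(PP Λ c), B ω = A ω) ∧
      ∀ᵐ ω ∂(PP Λ c), ∀ (ψ : E) (μ : Measure ℝ), IsFiniteMeasure μ → IsSpec (H ω) ψ μ →
        μ ≪ volume → ∀ f g : BoundedContinuousFunction ℝ ℝ,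
        ‖B ω ψ - (cfc (⇑f) (H ω) ψ + I • cfc (⇑g) (H ω) ψ)‖ ^ 2
          = ∫ s, ‖α s - ((f s : ℂ) + I * (g s : ℂ))‖ ^ 2 ∂μ := by
  have := PP_prob Λ M.hc
  obtain ⟨B, hB, hBH, hlim, htr⟩ := mean_erg_trace M hV hH hA
  obtain ⟨α, h1, h2, h3⟩ := M.trivial_commutant hcov hB hBH
  refine ⟨B, α, hB, hBH, h1, h2, hlim, fun n => ?_, fun hAH => ?_, h3⟩
  · obtain ⟨L, hL⟩ := (hH.pow n).bdd
    exact htr (fun ω => (H ω) ^ n) L (MCov.of_covOp hV (hH.pow n) hL)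
      (fun ω => (Commute.refl (H ω)).pow_left n)
  · have h4 : ∀ x, ∀ᵐ ω ∂(PP Λ c), (B ω - A ω) (e x) = 0 := by
      intro x
      have h5 : ∀ T : ℝ, 0 < T → ∫⁻ ω, ‖TA H ω (A ω) T (e x) - B ω (e x)‖ₑ ^ 2 ∂(PP Λ c)
          = ∫⁻ ω, ‖(B ω - A ω) (e x)‖ₑ ^ 2 ∂(PP Λ c) := by
        intro T hT
        refine lintegral_congr_ae ?_
        filter_upwards [hAH] with ω hω
        rw [TA_of_commute hω hT]
        congr 1
        rw [← enorm_neg]
        congr 1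
        show -(A ω (e x) - B ω (e x)) = B ω (e x) - A ω (e x)
        abel
      have h6 : Tendsto (fun _ : ℝ => ∫⁻ ω, ‖(B ω - A ω) (e x)‖ₑ ^ 2 ∂(PP Λ c)) atTop (𝓝 0) := by
        refine (hlim x).congr' ?_
        filter_upwards [eventually_gt_atTop 0] with T hT using h5 T hT
      have h7 := tendsto_nhds_unique h6 tendsto_const_nhds
      have h8 := (lintegral_eq_zero_iff ((hB.sub hA).measurable_sq M x)).mp h7.symm
      filter_upwards [h8] with ω hω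
      simpa using hω
    filter_upwards [ae_all_iff.mpr h4] with ω hω
    refine me_ext M.ortho M.tot fun x => ?_
    exact sub_eq_zero.mp (hω x)

end abstract

section concrete

variable {d : ℕ} {W : Type*} [NormedAddCommGroup W] [InnerProductSpace ℂ W] [CompleteSpace W]

/-- the translations -/
noncomputable def VB (b : HilbertBasis (Fin d → ℤ) ℂ W) (a : Fin d → ℤ) : W ≃ₗᵢ[ℂ] W :=
  (b.repr.trans (VV d a)).trans b.repr.symm

theorem VB_apply (b : HilbertBasis (Fin d → ℤ) ℂ W) (a : Fin d → ℤ) (u : W) :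
    VB b a u = b.repr.symm (VV d a (b.repr u)) := rfl

theorem trans_VB (b : HilbertBasis (Fin d → ℤ) ℂ W) : Trans (fun x => b x) (VB b) where
  apply a x := by
    rw [VB_apply, repr_b, (trans_VV d).apply a x, symm_ee]

theorem covOp_HB (b : HilbertBasis (Fin d → ℤ) ℂ W) {c : ℝ} (hc : 0 < c) :
    CovOp (VB b) (HB b c) where
  bdd := by
    obtain ⟨K, hK⟩ := (covOp_HH (d := d) hc).bdd
    refine ⟨K, fun ω => ContinuousLinearMap.opNorm_le_bound _ ((norm_nonneg _).trans (hK ω))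
      fun u => ?_⟩
    rw [HB_apply, LinearIsometryEquiv.norm_map]
    refine ((HH d c ω).le_opNorm _).trans ?_
    rw [LinearIsometryEquiv.norm_map]
    exact mul_le_mul_of_nonneg_right (hK ω) (norm_nonneg _)
  cont u := (modelB b hc).cont u
  cov a ω u := by
    rw [VB_apply, HB_apply, HB_apply, VB_apply, LinearIsometryEquiv.apply_symm_apply,
      LinearIsometryEquiv.apply_symm_apply, (covOp_HH hc).cov]

end concrete

end Pool.Agent.Lib.MP_562b47_mp
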